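import Pool.Agent.Q231.Line.Defs

set_option autoImplicit false

/-!
Schedules on a line described by positions.
-/

namespace Pool.Agent.Q231.Line

/-- distance on the line -/
def ds (x y : ℕ) : ℕ := (x - y) + (y - x)

theorem ds_tri (x y z : ℕ) : ds x z ≤ ds x y + ds y z := by unfold ds; omega

theorem ds_comm (x y : ℕ) : ds x y = ds y x := by unfold ds; omega

theorem ds_self (x : ℕ) : ds x x = 0 := by unfold ds; omega

section
variable (pos r h : ℕ → ℕ) (p0 : ℕ)

/-- time of return -/
def fin' : ℕ → ℕ → List ℕ → ℕ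
  | p, τ, [] => τ + ds p p0
  | p, τ, j :: l => fin' (pos j) (max (τ + ds p (pos j)) (r j) + h j) l

/-- remaining travel -/
def tr : ℕ → List ℕ → ℕ
  | p, [] => ds p p0
  | p, j :: l => ds p (pos j) + tr (pos j) l

/-- remaining travel and handling -/
def rst : ℕ → List ℕ → ℕ
  | p, [] => ds p p0
  | p, j :: l => ds p (pos j) + h j + rst (pos j) l

/-- all tail constraints -/
def okl (T : ℕ) : List ℕ → Prop
  | [] => True
  | j :: l => r j + h j + rst pos h p0 (pos j) l ≤ T ∧ okl T l

theorem fin_le_iff (T : ℕ) (l : List ℕ) (p τ : ℕ) :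
    fin' pos r h p0 p τ l ≤ T ↔ τ + rst pos h p0 p l ≤ T ∧ okl pos r h p0 T l := by
  induction l generalizing p τ with
  | nil => simp [fin', rst, okl]
  | cons j l ih =>
    simp only [fin', rst, okl, ih]
    constructor
    · rintro ⟨h1, h2⟩
      have := le_max_left (τ + ds p (pos j)) (r j)
      have := le_max_right (τ + ds p (pos j)) (r j)
      refine ⟨by omega, by omega, h2⟩
    · rintro ⟨h1, h2, h3⟩
      refine ⟨?_, h3⟩
      rcases max_choice (τ + ds p (pos j)) (r j) with h4 | h4 <;> rw [h4] <;> omega

theorem rst_eq (l : List ℕ) (p : ℕ) : rst pos h p0 p l = tr pos p0 p l + (l.map h).sum := by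
  induction l generalizing p with
  | nil => simp [rst, tr]
  | cons j l ih => simp only [rst, tr, ih, List.map_cons, List.sum_cons]; omega

theorem tr_ge (l : List ℕ) (p : ℕ) : ds p p0 ≤ tr pos p0 p l := by
  induction l generalizing p with
  | nil => simp [tr]
  | cons j l ih =>
    have := ih (pos j)
    have := ds_tri p (pos j) p0
    simp only [tr]; omega

theorem tr_split (l1 : List ℕ) (b : ℕ) (l2 : List ℕ) (p : ℕ) :
    ds p (pos b) + tr pos p0 (pos b) l2 ≤ tr pos p0 p (l1 ++ b :: l2) := by
  induction l1 generalizing p with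
  | nil => simp [tr]
  | cons j l ih =>
    have := ih (pos j)
    have := ds_tri p (pos j) (pos b)
    simp only [tr, List.cons_append]; omega

theorem okl_split (T : ℕ) (l1 : List ℕ) (b : ℕ) (l2 : List ℕ)
    (hok : okl pos r h p0 T (l1 ++ b :: l2)) : r b + h b + rst pos h p0 (pos b) l2 ≤ T := by
  induction l1 with
  | nil => exact hok.1
  | cons j l ih => exact ih hok.2

/-- The abstract consequences of a schedule with return time at most `T`, with the travel after the
processing of every job, and the rank of every job in the schedule. -/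
theorem exists_rank (n T : ℕ) (l : List ℕ) (hl : l.Perm (List.range n))
    (hfin : fin' pos r h p0 p0 0 l ≤ T) :
    ∃ rk Tr : ℕ → ℕ,
      (∀ a < n, ∀ b < n, rk a = rk b → a = b) ∧
      (∀ a < n, r a + Tr a + (∑ k ∈ Finset.range n, if rk a ≤ rk k then h k else 0) ≤ T) ∧
      (∀ a < n, ∀ b < n, rk b < rk a → ds (pos b) (pos a) + Tr a ≤ Tr b) ∧
      (∀ a < n, ds (pos a) p0 ≤ Tr a) ∧
      (∀ a < n, ds p0 (pos a) + Tr a + (∑ k ∈ Finset.range n, h k) ≤ T) := by
  have hnd : l.Nodup := hl.nodup_iff.2 List.nodup_range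
  have hmem : ∀ a, a < n → a ∈ l := fun a ha => hl.mem_iff.2 (List.mem_range.2 ha)
  obtain ⟨h1, h2⟩ := (fin_le_iff pos r h p0 T l p0 0).1 hfin
  have hsplit : ∀ a, a < n → l = l.take (l.idxOf a) ++ a :: l.drop (l.idxOf a + 1) := by
    intro a ha
    have hlt : l.idxOf a < l.length := List.idxOf_lt_length_of_mem (hmem a ha)
    conv_lhs => rw [← List.take_append_drop (l.idxOf a) l]
    rw [List.drop_eq_getElem_cons hlt, List.getElem_idxOf]
  have hidx : ∀ (j : ℕ) (hj : j < l.length), l.idxOf l[j] = j := fun j hj =>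
    hnd.idxOf_getElem j hj
  have hall : ∀ g : ℕ → ℕ, (∑ k ∈ Finset.range n, g k) = (l.map g).sum := by
    intro g
    rw [(hl.map g).sum_eq]
    rfl
  have hsum : ∀ a, a < n → (∑ k ∈ Finset.range n, if l.idxOf a ≤ l.idxOf k then h k else 0) =
      h a + ((l.drop (l.idxOf a + 1)).map h).sum := by
    intro a ha
    have hlt : l.idxOf a < l.length := List.idxOf_lt_length_of_mem (hmem a ha)
    have hdr : l.drop (l.idxOf a) = a :: l.drop (l.idxOf a + 1) := by
      rw [List.drop_eq_getElem_cons hlt, List.getElem_idxOf]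
    have hR : h a + ((l.drop (l.idxOf a + 1)).map h).sum = ((l.drop (l.idxOf a)).map h).sum := by
      rw [hdr]; simp
    rw [hR]
    generalize l.idxOf a = i
    rw [hall]
    conv_lhs => rw [← List.take_append_drop i l]
    rw [List.map_append, List.sum_append]
    have z1 : (List.map (fun k => if i ≤ List.idxOf k (List.take i l ++ List.drop i l) then h k
        else 0) (List.take i l)).sum = 0 := by
      rw [List.take_append_drop]
      refine List.sum_eq_zero ?_
      intro x hx
      rw [List.mem_map] at hx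
      obtain ⟨y, hy, rfl⟩ := hx
      obtain ⟨j, hj, rfl⟩ := List.mem_iff_getElem.1 hy
      rw [List.length_take] at hj
      rw [List.getElem_take, hidx, if_neg (by omega)]
    have z2 : List.map (fun k => if i ≤ List.idxOf k (List.take i l ++ List.drop i l) then h k
        else 0) (List.drop i l) = (List.drop i l).map h := by
      rw [List.take_append_drop]
      refine List.map_congr_left ?_
      intro y hy
      obtain ⟨j, hj, rfl⟩ := List.mem_iff_getElem.1 hy
      rw [List.getElem_drop, hidx, if_pos (by omega)]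
    rw [z1, z2, zero_add]
  refine ⟨fun a => l.idxOf a, fun a => tr pos p0 (pos a) (l.drop (l.idxOf a + 1)), ?_, ?_, ?_, ?_, ?_⟩
  · intro a ha b hb hab
    exact (List.idxOf_inj (hmem a ha)).1 hab
  · intro a ha
    have h3 := okl_split pos r h p0 T _ a _ (hsplit a ha ▸ h2)
    rw [rst_eq] at h3
    have h4 := hsum a ha
    simp only
    omega
  · intro a ha b hb hab
    simp only at hab ⊢
    have hlt : l.idxOf a < l.length := List.idxOf_lt_length_of_mem (hmem a ha)
    have e : l.drop (l.idxOf b + 1) = (l.drop (l.idxOf b + 1)).take (l.idxOf a - (l.idxOf b + 1)) ++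
        a :: l.drop (l.idxOf a + 1) := by
      conv_lhs => rw [← List.take_append_drop (l.idxOf a - (l.idxOf b + 1)) (l.drop (l.idxOf b + 1))]
      rw [List.drop_drop, show l.idxOf b + 1 + (l.idxOf a - (l.idxOf b + 1)) = l.idxOf a by omega,
        List.drop_eq_getElem_cons hlt, List.getElem_idxOf]
    rw [e]
    exact tr_split pos p0 _ a _ (pos b)
  · intro a ha
    exact tr_ge pos p0 _ _
  · intro a ha
    rw [zero_add, rst_eq, ← hall] at h1
    have h3 := tr_split pos p0 (l.take (l.idxOf a)) a (l.drop (l.idxOf a + 1)) p0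
    rw [← hsplit a ha] at h3
    simp only
    omega

end

end Pool.Agent.Q231.Line
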