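import Pool.Agent.Q231.Line.Core

set_option autoImplicit false

/-!
# Completeness of the gadget instance
-/

namespace Pool.Agent.Q231.Line.Par

open Finset

variable (p : Par) (s : ℕ → Bool)

/-- left jobs processed at the end of the schedule, for the indices from `m - j` on -/
def iL : ℕ → List ℕ
  | 0 => []
  | j + 1 => if s (p.m - 1 - j) then iL j else p.Lx (p.m - 1 - j) :: iL j

/-- right jobs processed at the end of the schedule, for the indices below `i` -/
def iR : ℕ → List ℕ
  | 0 => iL p s p.m
  | i + 1 => if s i then p.Rx i :: iR i else iR i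

/-- the trips -/
def mid : ℕ → List ℕ
  | 0 => p.Fx :: iR p s p.m
  | i + 1 => (if s i then p.Lx i else p.Rx i) :: p.Ax i :: mid i

/-- the whole schedule -/
def sched : List ℕ := 0 :: p.Ax p.m :: mid p s p.m

/-- tail constraints -/
def okd : List ℕ → Prop
  | [] => True
  | j :: l => p.hf j + rst p.posf p.hf 0 (p.posf j) l ≤ p.df j ∧ okd l

variable {p s}

theorem M_mono {a b : ℕ} (hab : a ≤ b) : p.M a ≤ p.M b := by
  induction b, hab using Nat.le_induction with
  | base => exact le_rfl
  | succ b _ ih => have := p.mon b; omega

theorem eI_le {i : ℕ} (hi : i < p.m) : p.eI i ≤ p.AA p.m := by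
  have h1 := p.H1 i hi
  have h2 := p.A1 i
  have h3 := AAmono (p := p) (show i + 1 ≤ p.m by omega)
  unfold eI
  omega

theorem dA_le_eI (i : ℕ) : p.dA i ≤ p.eI i := by
  have := p.tW
  unfold dA eI
  split_ifs with h
  · subst h
    have := p.A0
    omega
  · have := p.P1 i
    omega

theorem df_le_T {k : ℕ} : p.df k ≤ p.T := by
  have h4 := p.tW
  have h5 := p.WX
  unfold df
  split_ifs with h1 h2 h3 h6
  · exact le_rfl
  · have := eI_le (p := p) (show p.m - k < p.m by omega)
    unfold T; omega
  · rcases Nat.lt_or_ge (k - (p.m + 1)) p.m with h | h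
    · have h7 := eI_le (p := p) h
      have h8 := dA_le_eI (p := p) (k - (p.m + 1))
      unfold T; omega
    · rw [show k - (p.m + 1) = p.m by omega]
      unfold dA T
      have := p.PW
      split_ifs with h9
      · rw [h9] at this ⊢
        have := p.P0
        have := p.A0
        omega
      · omega
  · have := eI_le (p := p) (show k - (2 * p.m + 2) < p.m by omega)
    unfold T; omega
  · unfold dF T; omega

theorem okl_of_okd (l : List ℕ) (h : okd p l) :
    okl p.posf (fun k => p.T - p.df k) p.hf 0 p.T l := by
  induction l with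
  | nil => trivial
  | cons j l ih =>
    refine ⟨?_, ih h.2⟩
    have h1 := df_le_T (p := p) (k := j)
    have h2 := h.1
    show p.T - p.df j + p.hf j + rst p.posf p.hf 0 (p.posf j) l ≤ p.T
    omega

theorem rst_iL (j : ℕ) (hj : j ≤ p.m) (x : ℕ) (hx : 0 < j → p.X - p.M (p.m - j) ≤ x) :
    rst p.posf p.hf 0 x (iL p s j) =
      x + ∑ i ∈ Ico (p.m - j) p.m, (if s i then 0 else 2 * p.M i) := by
  induction j generalizing x with
  | zero => simp [iL, rst, ds]
  | succ j ih =>
    have e1 : p.m - 1 - j = p.m - (j + 1) := by omega
    have e2 : p.m - (j + 1) + 1 = p.m - j := by omega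
    have hlt : p.m - (j + 1) < p.m := by omega
    rw [sum_eq_sum_Ico_succ_bot hlt, e2]
    simp only [iL, e1]
    have hx' := hx (Nat.succ_pos j)
    have hmono : 0 < j → p.X - p.M (p.m - j) ≤ p.X - p.M (p.m - (j + 1)) := by
      intro _
      have := M_mono (p := p) (show p.m - (j + 1) ≤ p.m - j by omega)
      omega
    cases hs : s (p.m - (j + 1)) with
    | true =>
      simp only [if_true, zero_add]
      exact ih (by omega) x fun h => (hmono h).trans hx'
    | false =>
      simp only [Bool.false_eq_true, if_false]
      rw [rst, pos_L hlt, h_L hlt, ih (by omega) _ hmono]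
      unfold ds
      omega

theorem rst_iR (i : ℕ) (hi : i ≤ p.m) (x : ℕ) (hx0 : p.X ≤ x)
    (hx : ∀ j < i, p.X + p.M j + p.w j ≤ x) :
    rst p.posf p.hf 0 x (iR p s i) =
      x + ∑ j ∈ range i, (if s j then 2 * p.M j + 2 * p.w j else 0) +
        ∑ j ∈ range p.m, (if s j then 0 else 2 * p.M j) := by
  induction i generalizing x with
  | zero =>
    simp only [iR]
    rw [rst_iL p.m le_rfl x (fun _ => by omega), Nat.sub_self, ← range_eq_Ico]
    simp
  | succ i ih =>
    rw [sum_range_succ]
    simp only [iR]
    have hxi := hx i (Nat.lt_succ_self i)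
    have hpos : ∀ j < i, p.X + p.M j + p.w j ≤ p.X + p.M i + p.w i := by
      intro j hj
      have h1 := M_mono (p := p) (show j + 1 ≤ i by omega)
      have h2 := p.mon j
      omega
    cases hs : s i with
    | true =>
      simp only [if_true]
      rw [rst, pos_R (by omega), h_R (by omega), ih (by omega) _ (by omega) hpos]
      unfold ds
      omega
    | false =>
      simp only [Bool.false_eq_true, if_false, add_zero]
      exact ih (by omega) x hx0 fun j hj => hx j (by omega)

/-- the load processed at the end -/
theorem init_load (hs : ∑ i ∈ range p.m, (if s i then p.w i else 0) = p.t) :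
    ∑ j ∈ range p.m, (if s j then 2 * p.M j + 2 * p.w j else 0) +
        ∑ j ∈ range p.m, (if s j then 0 else 2 * p.M j) = p.G p.m + 2 * p.t := by
  rw [← sum_M, ← hs, mul_sum, ← sum_add_distrib, ← sum_add_distrib]
  exact sum_congr rfl fun i _ => by split_ifs <;> omega

theorem rst_F (hs : ∑ i ∈ range p.m, (if s i then p.w i else 0) = p.t) :
    rst p.posf p.hf 0 (p.posf p.Fx) (iR p s p.m) = 2 * p.X + p.G p.m + 2 * p.t := by
  rw [pos_F, rst_iR p.m le_rfl _ (by omega) (fun j hj => by have := p.bd j hj; omega)]
  have := init_load hs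
  omega

/-- weights of the trips to the right -/
def wR (p : Par) (s : ℕ → Bool) (i : ℕ) : ℕ := ∑ j ∈ range i, (if s j then 0 else p.w j)

theorem wR_le_P (i : ℕ) : wR p s i ≤ p.P i := by
  unfold wR
  rw [← sum_w]
  exact sum_le_sum fun j _ => by split_ifs <;> omega

theorem wR_total (hs : ∑ i ∈ range p.m, (if s i then p.w i else 0) = p.t) :
    wR p s p.m = p.W - p.t := by
  have : ∑ i ∈ range p.m, (if s i then p.w i else 0) + wR p s p.m = p.W := by
    unfold wR
    rw [← sum_add_distrib, ← p.PW, ← sum_w]
    exact sum_congr rfl fun i _ => by split_ifs <;> simp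
  omega

theorem wR_mono {i j : ℕ} (h : i ≤ j) : wR p s i ≤ wR p s j :=
  sum_le_sum_of_subset fun k hk => mem_range.2 (by have := mem_range.1 hk; omega)

theorem wR_succ (i : ℕ) : wR p s (i + 1) = wR p s i + if s i then 0 else p.w i := by
  unfold wR; rw [sum_range_succ]

theorem rst_mid (hs : ∑ i ∈ range p.m, (if s i then p.w i else 0) = p.t) (i : ℕ) (hi : i ≤ p.m) :
    p.H i + rst p.posf p.hf 0 p.X (mid p s i) =
      3 * p.X + 1 + p.AA i + p.G p.m + 2 * p.t + 2 * p.G i + 4 * wR p s i := by
  induction i with
  | zero =>
    simp only [mid]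
    rw [rst, rst_F hs, pos_F, h_F, p.A0, p.G0]
    simp only [wR, range_zero, sum_empty]
    unfold ds
    omega
  | succ i ih =>
    have ih' := ih (by omega)
    simp only [mid]
    rw [wR_succ]
    have hG := p.G1 i
    have hA := p.A1 i
    have hbd := p.bd i (by omega)
    cases hsi : s i with
    | true =>
      simp only [if_true]
      rw [rst, rst, pos_A (by omega), pos_L (by omega), h_L (by omega), h_A (by omega)]
      unfold ds
      omega
    | false =>
      simp only [Bool.false_eq_true, if_false]
      rw [rst, rst, pos_A (by omega), pos_R (by omega), h_R (by omega), h_A (by omega)]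
      unfold ds
      omega

theorem okd_iL (j : ℕ) (hj : j ≤ p.m) : okd p (iL p s j) := by
  induction j with
  | zero => trivial
  | succ j ih =>
    have e1 : p.m - 1 - j = p.m - (j + 1) := by omega
    have hlt : p.m - (j + 1) < p.m := by omega
    simp only [iL, e1]
    cases hs : s (p.m - (j + 1)) with
    | true => simp only [if_true]; exact ih (by omega)
    | false =>
      simp only [Bool.false_eq_true, if_false]
      refine ⟨?_, ih (by omega)⟩
      have hbd := p.bd _ hlt
      rw [h_L hlt, pos_L hlt, d_L hlt, rst_iL j (by omega) _ (fun _ => by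
        have := M_mono (p := p) (show p.m - (j + 1) ≤ p.m - j by omega)
        omega)]
      have h1 : ∑ i ∈ Ico (p.m - j) p.m, (if s i then 0 else 2 * p.M i) ≤ p.G p.m := by
        rw [← sum_M]
        calc _ ≤ ∑ i ∈ Ico (p.m - j) p.m, 2 * p.M i :=
              sum_le_sum fun i _ => by split_ifs <;> omega
          _ ≤ _ := sum_le_sum_of_subset fun k hk => mem_range.2 (by
              have := (mem_Ico.1 hk).2; omega)
      unfold eI
      omega

theorem okd_iR (hs : ∑ i ∈ range p.m, (if s i then p.w i else 0) = p.t) (i : ℕ) (hi : i ≤ p.m) :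
    okd p (iR p s i) := by
  induction i with
  | zero => exact okd_iL p.m le_rfl
  | succ i ih =>
    simp only [iR]
    cases hsi : s i with
    | false => simp only [Bool.false_eq_true, if_false]; exact ih (by omega)
    | true =>
      simp only [if_true]
      refine ⟨?_, ih (by omega)⟩
      have hbd := p.bd i (by omega)
      have hP := p.P1 i
      have htW := p.tW
      rw [h_R (by omega), pos_R (by omega), d_R (by omega), rst_iR i (by omega) _ (by omega)
        (fun j hj => by
          have h1 := M_mono (p := p) (show j + 1 ≤ i by omega)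
          have h2 := p.mon j
          omega)]
      have h1 := init_load hs
      have h2 : ∑ j ∈ range i, (if s j then 2 * p.M j + 2 * p.w j else 0) ≤
          ∑ j ∈ range p.m, (if s j then 2 * p.M j + 2 * p.w j else 0) :=
        sum_le_sum_of_subset fun k hk => mem_range.2 (by have := mem_range.1 hk; omega)
      unfold eI
      omega

theorem okd_mid (hs : ∑ i ∈ range p.m, (if s i then p.w i else 0) = p.t) (i : ℕ) (hi : i ≤ p.m) :
    p.H i + rst p.posf p.hf 0 p.X (mid p s i) ≤ p.dA i ∧ okd p (mid p s i) := by
  have hA : ∀ i ≤ p.m, p.H i + rst p.posf p.hf 0 p.X (mid p s i) ≤ p.dA i := by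
    intro i hi
    rw [rst_mid hs i hi]
    unfold dA
    split_ifs with h
    · subst h
      rw [p.A0, p.G0]
      simp only [wR, range_zero, sum_empty]
      omega
    · have h1 := wR_le_P (p := p) (s := s) i
      have h2 := wR_mono (p := p) (s := s) hi
      have h3 := wR_total hs
      have := p.tW
      omega
  refine ⟨hA i hi, ?_⟩
  induction i with
  | zero =>
    refine ⟨?_, okd_iR hs p.m le_rfl⟩
    rw [rst_F hs, h_F, d_F]
    unfold dF; omega
  | succ i ih =>
    simp only [mid]
    have hmid := rst_mid hs i (by omega)
    have hbd := p.bd i (by omega)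
    have h1 := wR_le_P (p := p) (s := s) (i + 1)
    have h2 := wR_mono (p := p) (s := s) hi
    have h3 := wR_total hs
    have h4 := wR_succ (p := p) (s := s) i
    have htW := p.tW
    refine ⟨?_, ?_, ih (by omega)⟩
    · cases hsi : s i with
      | true =>
        simp only [if_true]
        rw [rst, pos_L (by omega), h_L (by omega), d_L (by omega), pos_A (by omega), h_A (by omega)]
        rw [hsi] at h4
        simp only [if_true] at h4
        unfold eI ds
        omega
      | false =>
        simp only [Bool.false_eq_true, if_false]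
        rw [rst, pos_R (by omega), h_R (by omega), d_R (by omega), pos_A (by omega), h_A (by omega)]
        rw [hsi] at h4
        simp only [Bool.false_eq_true, if_false] at h4
        unfold eI ds
        omega
    · rw [pos_A (by omega), h_A (by omega), d_A (by omega)]
      exact hA i (by omega)

theorem okd_sched (hs : ∑ i ∈ range p.m, (if s i then p.w i else 0) = p.t) :
    okd p (sched p s) ∧ rst p.posf p.hf 0 0 (sched p s) = p.T := by
  have hmid := rst_mid hs p.m le_rfl
  have h3 := wR_total hs
  have htW := p.tW
  have key : 1 + (p.X + p.H p.m + rst p.posf p.hf 0 p.X (mid p s p.m)) = p.T := by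
    unfold T
    omega
  refine ⟨⟨?_, ?_, (okd_mid hs p.m le_rfl).2⟩, ?_⟩
  · rw [rst, h_V, d_V, pos_V, pos_A le_rfl, h_A le_rfl]
    unfold ds
    omega
  · rw [pos_A le_rfl, h_A le_rfl, d_A le_rfl]
    exact (okd_mid hs p.m le_rfl).1
  · rw [sched, rst, rst, h_V, pos_V, pos_A le_rfl, h_A le_rfl]
    unfold ds
    omega

theorem mem_iL (j : ℕ) (k : ℕ) (h1 : p.m - j ≤ k) (h2 : k < p.m) (h3 : j ≤ p.m)
    (hs : s k = false) : p.Lx k ∈ iL p s j := by
  induction j with
  | zero => omega
  | succ j ih =>
    have e1 : p.m - 1 - j = p.m - (j + 1) := by omega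
    simp only [iL, e1]
    rcases Nat.lt_or_ge k (p.m - j) with h | h
    · have : k = p.m - (j + 1) := by omega
      subst this
      rw [hs]
      simp
    · have := ih h (by omega)
      split_ifs
      · exact this
      · exact List.mem_cons_of_mem _ this

theorem mem_iR_of_iL (i x : ℕ) (h : x ∈ iL p s p.m) : x ∈ iR p s i := by
  induction i with
  | zero => exact h
  | succ i ih =>
    simp only [iR]
    split_ifs
    · exact List.mem_cons_of_mem _ ih
    · exact ih

theorem mem_iR (i k : ℕ) (h : k < i) (hs : s k = true) : p.Rx k ∈ iR p s i := by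
  induction i with
  | zero => omega
  | succ i ih =>
    simp only [iR]
    rcases Nat.lt_or_ge k i with h' | h'
    · have := ih h'
      split_ifs
      · exact List.mem_cons_of_mem _ this
      · exact this
    · have : k = i := by omega
      subst this
      rw [hs]; simp

theorem mem_mid_of_iR (i x : ℕ) (h : x ∈ iR p s p.m) : x ∈ mid p s i := by
  induction i with
  | zero => exact List.mem_cons_of_mem _ h
  | succ i ih =>
    simp only [mid]
    exact List.mem_cons_of_mem _ (List.mem_cons_of_mem _ ih)

theorem mem_mid_F (i : ℕ) : p.Fx ∈ mid p s i := by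
  induction i with
  | zero => exact List.mem_cons_self
  | succ i ih =>
    simp only [mid]
    exact List.mem_cons_of_mem _ (List.mem_cons_of_mem _ ih)

theorem mem_mid (i k : ℕ) (h : k < i) :
    p.Ax k ∈ mid p s i ∧ (if s k then p.Lx k else p.Rx k) ∈ mid p s i := by
  induction i with
  | zero => omega
  | succ i ih =>
    simp only [mid]
    rcases Nat.lt_or_ge k i with h' | h'
    · exact ⟨List.mem_cons_of_mem _ (List.mem_cons_of_mem _ (ih h').1),
        List.mem_cons_of_mem _ (List.mem_cons_of_mem _ (ih h').2)⟩
    · have : k = i := by omega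
      subst this
      exact ⟨List.mem_cons_of_mem _ List.mem_cons_self, List.mem_cons_self⟩

theorem length_iL (j : ℕ) :
    (iL p s j).length = ∑ i ∈ range j, if s (p.m - 1 - i) then 0 else 1 := by
  induction j with
  | zero => simp [iL]
  | succ j ih =>
    simp only [iL]
    rw [sum_range_succ, ← ih]
    split_ifs <;> simp

theorem length_iR (i : ℕ) :
    (iR p s i).length = (∑ j ∈ range i, if s j then 1 else 0) + (iL p s p.m).length := by
  induction i with
  | zero => simp [iR]
  | succ i ih =>
    simp only [iR]
    rw [sum_range_succ]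
    split_ifs <;> simp [ih] <;> omega

theorem length_mid (i : ℕ) : (mid p s i).length = 2 * i + 1 + p.m := by
  induction i with
  | zero =>
    simp only [mid, List.length_cons, length_iR, length_iL]
    rw [sum_range_reflect (fun i => if s i then 0 else 1) p.m, ← sum_add_distrib]
    have : ∑ i ∈ range p.m, ((if s i then 1 else 0) + (if s i then 0 else 1)) = p.m := by
      calc _ = ∑ i ∈ range p.m, 1 := sum_congr rfl fun i _ => by split_ifs <;> rfl
        _ = _ := by simp
    omega
  | succ i ih => simp only [mid, List.length_cons, ih]; omega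

theorem sched_perm : (sched p s).Perm (List.range p.n) := by
  have hsub : List.range p.n ⊆ sched p s := by
    intro k hk
    have hk' := List.mem_range.1 hk
    unfold sched
    by_cases h0 : k = 0
    · subst h0; exact List.mem_cons_self
    refine List.mem_cons_of_mem _ ?_
    by_cases h1 : k ≤ p.m
    · have e : k = p.Lx (p.m - k) := by unfold Lx; omega
      refine List.mem_cons_of_mem _ ?_
      cases hs : s (p.m - k) with
      | true =>
        have := (mem_mid (p := p) (s := s) p.m (p.m - k) (by omega)).2
        rw [hs] at this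
        simp only [if_true] at this
        rw [← e] at this
        exact this
      | false =>
        rw [e]
        exact mem_mid_of_iR _ _ (mem_iR_of_iL _ _ (mem_iL p.m _ (by omega) (by omega) le_rfl hs))
    by_cases h2 : k ≤ 2 * p.m + 1
    · have e : k = p.Ax (k - (p.m + 1)) := by unfold Ax; omega
      rcases Nat.lt_or_ge (k - (p.m + 1)) p.m with h | h
      · rw [e]
        exact List.mem_cons_of_mem _ (mem_mid p.m _ h).1
      · have : k - (p.m + 1) = p.m := by omega
        rw [e, this]
        exact List.mem_cons_self
    refine List.mem_cons_of_mem _ ?_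
    by_cases h3 : k ≤ 3 * p.m + 1
    · have e : k = p.Rx (k - (2 * p.m + 2)) := by unfold Rx; omega
      cases hs : s (k - (2 * p.m + 2)) with
      | true =>
        rw [e]
        exact mem_mid_of_iR _ _ (mem_iR p.m _ (by omega) hs)
      | false =>
        have := (mem_mid (p := p) (s := s) p.m (k - (2 * p.m + 2)) (by omega)).2
        rw [hs] at this
        simp only [Bool.false_eq_true, if_false] at this
        rw [← e] at this
        exact this
    · have e : k = p.Fx := by unfold Fx; unfold n at hk'; omega
      rw [e]
      exact mem_mid_F _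
  have hlen : (sched p s).length = p.n := by
    unfold sched
    simp only [List.length_cons, length_mid]
    unfold n; omega
  have h1 : (List.range p.n).Subperm (sched p s) := List.nodup_range.subperm hsub
  exact (h1.perm_of_length_le (by rw [hlen]; simp)).symm

/-- Completeness. -/
theorem complete (hs : ∃ s : ℕ → Bool, ∑ i ∈ range p.m, (if s i then p.w i else 0) = p.t) :
    ∃ l : List ℕ, l.Perm (List.range p.n) ∧
      fin' p.posf (fun k => p.T - p.df k) p.hf 0 0 0 l ≤ p.T := by
  obtain ⟨s, hs⟩ := hs
  refine ⟨sched p s, sched_perm, (fin_le_iff _ _ _ _ _ _ _ _).2 ⟨?_, okl_of_okd _ (okd_sched hs).1⟩⟩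
  rw [zero_add, (okd_sched hs).2]

/-- The gadget is correct. -/
theorem correct : (∃ l : List ℕ, l.Perm (List.range p.n) ∧
      fin' p.posf (fun k => p.T - p.df k) p.hf 0 0 0 l ≤ p.T) ↔
    ∃ s : ℕ → Bool, ∑ i ∈ range p.m, (if s i then p.w i else 0) = p.t := by
  refine ⟨?_, complete⟩
  rintro ⟨l, hl, hfin⟩
  obtain ⟨rk, Tr, h1, h2, h3, h4, h5⟩ := exists_rank p.posf (fun k => p.T - p.df k) p.hf 0 p.n p.T l hl
    hfin
  refine Sch.sound (p := p) (rk := rk) (Tr := Tr) ⟨h1, ?_, h3, h4, h5⟩
  intro a ha
  have := h2 a ha
  unfold Ld
  omega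

end Pool.Agent.Q231.Line.Par
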