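import Pool.Agent.Q231.Line.Abs

set_option autoImplicit false

/-!
# The gadget instance and its soundness
-/

namespace Pool.Agent.Q231.Line

open Finset

/-- The numbers used in the construction. -/
structure Par where
  /-- number of items -/
  m : ℕ
  /-- target -/
  t : ℕ
  /-- sum of the items -/
  W : ℕ
  /-- half of the length of the path -/
  X : ℕ
  /-- items -/
  w : ℕ → ℕ
  /-- distances -/
  M : ℕ → ℕ
  /-- partial sums of `2 M` -/
  G : ℕ → ℕ
  /-- partial sums of the items -/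
  P : ℕ → ℕ
  /-- handling times of the anchors -/
  H : ℕ → ℕ
  /-- partial sums of `H` -/
  AA : ℕ → ℕ
  G0 : G 0 = 0
  G1 : ∀ i, G (i + 1) = G i + 2 * M i
  P0 : P 0 = 0
  P1 : ∀ i, P (i + 1) = P i + w i
  PW : P m = W
  tW : t ≤ W
  WX : 2 * W ≤ X
  dom : ∀ i, G i + 2 * W < 2 * M i
  bd : ∀ i, i < m → M i + w i ≤ X
  mon : ∀ i, M i + w i ≤ M (i + 1)
  A0 : AA 0 = H 0
  A1 : ∀ i, AA (i + 1) = AA i + H (i + 1)
  H0 : 2 * X + 1 + G m + 2 * t ≤ H 0
  H1 : ∀ i, i < m → 3 * X + 1 + AA i + 2 * G i + 3 * M i + G m + 2 * P (i + 1) + 2 * W ≤ H (i + 1)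

namespace Par
variable (p : Par)

/-- the bound -/
def T : ℕ := 4 * p.X + 2 + p.AA p.m + 3 * p.G p.m + 2 * p.W + 2 * (p.W - p.t)
/-- deadline of the job at the right end -/
def dF : ℕ := 2 * p.X + 1 + p.G p.m + 2 * p.t
/-- deadline of an anchor -/
def dA (i : ℕ) : ℕ :=
  if i = 0 then 3 * p.X + 1 + p.H 0 + p.G p.m + 2 * p.t
  else 3 * p.X + 1 + p.AA i + 2 * p.G i + p.G p.m + 2 * p.P i + 2 * p.W
/-- deadline of the jobs of a pair -/
def eI (i : ℕ) : ℕ :=
  3 * p.X + 1 + p.AA i + 2 * p.G i + 3 * p.M i + p.G p.m + 2 * p.P (i + 1) + 2 * p.W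

/-- positions -/
def posf (k : ℕ) : ℕ :=
  if k = 0 then 0 else if k ≤ p.m then p.X - p.M (p.m - k)
  else if k ≤ 2 * p.m + 1 then p.X
  else if k ≤ 3 * p.m + 1 then p.X + p.M (k - (2 * p.m + 2)) + p.w (k - (2 * p.m + 2))
  else 2 * p.X

/-- handling times -/
def hf (k : ℕ) : ℕ :=
  if k = 0 then 1 else if k ≤ p.m then 2 * p.M (p.m - k)
  else if k ≤ 2 * p.m + 1 then p.H (k - (p.m + 1))
  else if k ≤ 3 * p.m + 1 then 2 * p.M (k - (2 * p.m + 2)) + 2 * p.w (k - (2 * p.m + 2))
  else 1

/-- deadlines -/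
def df (k : ℕ) : ℕ :=
  if k = 0 then p.T else if k ≤ p.m then p.eI (p.m - k)
  else if k ≤ 2 * p.m + 1 then p.dA (k - (p.m + 1))
  else if k ≤ 3 * p.m + 1 then p.eI (k - (2 * p.m + 2))
  else p.dF

/-- left job -/
def Lx (i : ℕ) : ℕ := p.m - i
/-- anchor -/
def Ax (i : ℕ) : ℕ := p.m + 1 + i
/-- right job -/
def Rx (i : ℕ) : ℕ := 2 * p.m + 2 + i
/-- right end -/
def Fx : ℕ := 3 * p.m + 2
/-- number of jobs -/
def n : ℕ := 3 * p.m + 3

variable {p}
variable {i : ℕ}

theorem Lx_lt (hi : i < p.m) : p.Lx i < p.n := by unfold Lx n; omega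
theorem Ax_lt (hi : i ≤ p.m) : p.Ax i < p.n := by unfold Ax n; omega
theorem Rx_lt (hi : i < p.m) : p.Rx i < p.n := by unfold Rx n; omega
theorem Fx_lt : p.Fx < p.n := by unfold Fx n; omega

theorem pos_V : p.posf 0 = 0 := by simp [posf]
theorem pos_L (hi : i < p.m) : p.posf (p.Lx i) = p.X - p.M i := by
  unfold posf Lx
  rw [if_neg (by omega), if_pos (by omega), show p.m - (p.m - i) = i by omega]
theorem pos_A (hi : i ≤ p.m) : p.posf (p.Ax i) = p.X := by
  unfold posf Ax
  rw [if_neg (by omega), if_neg (by omega), if_pos (by omega)]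
theorem pos_R (hi : i < p.m) : p.posf (p.Rx i) = p.X + p.M i + p.w i := by
  unfold posf Rx
  rw [if_neg (by omega), if_neg (by omega), if_neg (by omega), if_pos (by omega),
    show 2 * p.m + 2 + i - (2 * p.m + 2) = i by omega]
theorem pos_F : p.posf p.Fx = 2 * p.X := by
  unfold posf Fx
  rw [if_neg (by omega), if_neg (by omega), if_neg (by omega), if_neg (by omega)]

theorem h_V : p.hf 0 = 1 := by simp [hf]
theorem h_L (hi : i < p.m) : p.hf (p.Lx i) = 2 * p.M i := by
  unfold hf Lx
  rw [if_neg (by omega), if_pos (by omega), show p.m - (p.m - i) = i by omega]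
theorem h_A (hi : i ≤ p.m) : p.hf (p.Ax i) = p.H i := by
  unfold hf Ax
  rw [if_neg (by omega), if_neg (by omega), if_pos (by omega),
    show p.m + 1 + i - (p.m + 1) = i by omega]
theorem h_R (hi : i < p.m) : p.hf (p.Rx i) = 2 * p.M i + 2 * p.w i := by
  unfold hf Rx
  rw [if_neg (by omega), if_neg (by omega), if_neg (by omega), if_pos (by omega),
    show 2 * p.m + 2 + i - (2 * p.m + 2) = i by omega]
theorem h_F : p.hf p.Fx = 1 := by
  unfold hf Fx
  rw [if_neg (by omega), if_neg (by omega), if_neg (by omega), if_neg (by omega)]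

theorem d_V : p.df 0 = p.T := by simp [df]
theorem d_L (hi : i < p.m) : p.df (p.Lx i) = p.eI i := by
  unfold df Lx
  rw [if_neg (by omega), if_pos (by omega), show p.m - (p.m - i) = i by omega]
theorem d_A (hi : i ≤ p.m) : p.df (p.Ax i) = p.dA i := by
  unfold df Ax
  rw [if_neg (by omega), if_neg (by omega), if_pos (by omega),
    show p.m + 1 + i - (p.m + 1) = i by omega]
theorem d_R (hi : i < p.m) : p.df (p.Rx i) = p.eI i := by
  unfold df Rx
  rw [if_neg (by omega), if_neg (by omega), if_neg (by omega), if_pos (by omega),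
    show 2 * p.m + 2 + i - (2 * p.m + 2) = i by omega]
theorem d_F : p.df p.Fx = p.dF := by
  unfold df Fx
  rw [if_neg (by omega), if_neg (by omega), if_neg (by omega), if_neg (by omega)]

theorem Gmono {i j : ℕ} (h : i ≤ j) : p.G i ≤ p.G j := by
  induction j, h using Nat.le_induction with
  | base => exact le_rfl
  | succ j _ ih => have := p.G1 j; omega

theorem Pmono {i j : ℕ} (h : i ≤ j) : p.P i ≤ p.P j := by
  induction j, h using Nat.le_induction with
  | base => exact le_rfl
  | succ j _ ih => have := p.P1 j; omega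

theorem AAmono {i j : ℕ} (h : i ≤ j) : p.AA i ≤ p.AA j := by
  induction j, h using Nat.le_induction with
  | base => exact le_rfl
  | succ j _ ih => have := p.A1 j; omega

theorem sum_jobs (g : ℕ → ℕ) : ∑ k ∈ range p.n, g k =
    g 0 + ∑ i ∈ range p.m, (g (p.Lx i) + g (p.Rx i)) + ∑ i ∈ range (p.m + 1), g (p.Ax i) +
      g p.Fx := by
  unfold n Lx Rx Ax Fx
  rw [show 3 * p.m + 3 = ((p.m + 1) + (p.m + 1) + p.m) + 1 by omega, sum_range_succ,
    sum_range_add, sum_range_add, sum_range_succ' (fun x => g x) p.m,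
    ← sum_range_reflect (fun k => g (k + 1)) p.m, sum_add_distrib]
  have e1 : ∑ j ∈ range p.m, g (p.m - 1 - j + 1) = ∑ j ∈ range p.m, g (p.m - j) :=
    sum_congr rfl fun j hj => by
      have := mem_range.1 hj
      rw [show p.m - 1 - j + 1 = p.m - j by omega]
  have e2 : ∑ x ∈ range p.m, g (p.m + 1 + (p.m + 1) + x) = ∑ x ∈ range p.m, g (2 * p.m + 2 + x) :=
    sum_congr rfl fun j _ => by rw [show p.m + 1 + (p.m + 1) + j = 2 * p.m + 2 + j by omega]
  rw [e1, e2, show p.m + 1 + (p.m + 1) + p.m = 3 * p.m + 2 by omega]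
  ring

theorem sum_H (k : ℕ) : ∑ i ∈ range (k + 1), p.H i = p.AA k := by
  induction k with
  | zero => simp [p.A0]
  | succ k ih => rw [sum_range_succ, ih, p.A1]

theorem sum_M (k : ℕ) : ∑ i ∈ range k, 2 * p.M i = p.G k := by
  induction k with
  | zero => simp [p.G0]
  | succ k ih => rw [sum_range_succ, ih, p.G1]

theorem sum_w (k : ℕ) : ∑ i ∈ range k, p.w i = p.P k := by
  induction k with
  | zero => simp [p.P0]
  | succ k ih => rw [sum_range_succ, ih, p.P1]

theorem sumH_total : ∑ k ∈ range p.n, p.hf k = 2 + p.AA p.m + 2 * p.G p.m + 2 * p.W := by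
  rw [sum_jobs, h_V, h_F]
  have e1 : ∑ i ∈ range p.m, (p.hf (p.Lx i) + p.hf (p.Rx i)) =
      ∑ i ∈ range p.m, (2 * p.M i + 2 * p.M i + 2 * p.w i) :=
    sum_congr rfl fun i hi => by rw [h_L (mem_range.1 hi), h_R (mem_range.1 hi)]; ring
  have e2 : ∑ i ∈ range (p.m + 1), p.hf (p.Ax i) = p.AA p.m := by
    rw [← sum_H]
    exact sum_congr rfl fun i hi => h_A (by have := mem_range.1 hi; omega)
  rw [e1, e2, sum_add_distrib, sum_add_distrib, sum_M, ← mul_sum, sum_w, p.PW]
  ring

section sound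

variable {rk Tr : ℕ → ℕ}

/-- load processed after (in the schedule) or at rank `ρ` -/
def Ld (p : Par) (rk : ℕ → ℕ) (ρ : ℕ) : ℕ := ∑ k ∈ range p.n, if ρ ≤ rk k then p.hf k else 0

theorem low_aux (f : ℕ → ℕ) (u i x : ℕ) (hui : u ≤ i)
    (h1 : ∀ j < u, 4 * p.M j + 2 * p.w j ≤ f j) (h2 : x ≤ f i) (N : ℕ)
    (h3 : ∀ j, i < j → j < N → 2 * p.M j ≤ f j) :
    2 * p.G (min N u) + 2 * p.P (min N u) + (if i < N then x + p.G N else 0) ≤
      (∑ j ∈ range N, f j) + (if i < N then p.G (i + 1) else 0) := by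
  induction N with
  | zero => simp [p.G0, p.P0]
  | succ N ih =>
    have ih' := ih fun j hj hj' => h3 j hj (by omega)
    rw [sum_range_succ]
    have g1 := p.G1 N
    have p1 := p.P1 N
    rcases lt_trichotomy N i with h | h | h
    · rw [if_neg (by omega), if_neg (by omega)] at *
      by_cases hu : N < u
      · have := h1 N hu
        rw [show min (N + 1) u = N + 1 by omega]
        rw [show min N u = N by omega] at ih'
        omega
      · rw [show min (N + 1) u = u by omega]
        rw [show min N u = u by omega] at ih'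
        omega
    · subst h
      rw [if_pos (by omega), if_pos (by omega)]
      rw [if_neg (by omega), if_neg (by omega)] at ih'
      rw [show min (N + 1) u = u by omega]
      rw [show min N u = u by omega] at ih'
      omega
    · rw [if_pos (by omega), if_pos (by omega)]
      rw [if_pos h, if_pos h] at ih'
      rw [show min (N + 1) u = u by omega]
      rw [show min N u = u by omega] at ih'
      have := h3 N h (by omega)
      omega

theorem load_ge (ρ u i x k : ℕ) (hi : i < p.m) (hui : u ≤ i) (hk : k ≤ p.m)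
    (h1 : ∀ j < u, ρ ≤ rk (p.Lx j) ∧ ρ ≤ rk (p.Rx j))
    (h2 : x ≤ (if ρ ≤ rk (p.Lx i) then p.hf (p.Lx i) else 0) +
      (if ρ ≤ rk (p.Rx i) then p.hf (p.Rx i) else 0))
    (h3 : ∀ j, i < j → j < p.m → ρ ≤ rk (p.Lx j) ∨ ρ ≤ rk (p.Rx j))
    (hA : ∀ j ≤ k, ρ ≤ rk (p.Ax j)) (hF : ρ ≤ rk p.Fx) :
    1 + p.AA k + 2 * p.G u + 2 * p.P u + x + p.G p.m ≤ Ld p rk ρ + p.G (i + 1) := by
  unfold Ld
  rw [sum_jobs, if_pos hF, h_F]
  have e1 := low_aux (p := p) (fun j => (if ρ ≤ rk (p.Lx j) then p.hf (p.Lx j) else 0) +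
      (if ρ ≤ rk (p.Rx j) then p.hf (p.Rx j) else 0)) u i x hui (by
        intro j hj
        have := h1 j hj
        rw [if_pos this.1, if_pos this.2, h_L (by omega), h_R (by omega)]
        omega) h2 p.m (by
        intro j hj hj'
        rcases h3 j hj hj' with h | h
        · rw [if_pos h, h_L hj']; omega
        · rw [if_pos h, h_R hj']; omega)
  rw [if_pos hi, if_pos hi, show min p.m u = u by omega] at e1
  have e2 : p.AA k ≤ ∑ j ∈ range (p.m + 1), if ρ ≤ rk (p.Ax j) then p.hf (p.Ax j) else 0 := by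
    rw [← sum_H]
    calc ∑ j ∈ range (k + 1), p.H j =
        ∑ j ∈ range (k + 1), (if ρ ≤ rk (p.Ax j) then p.hf (p.Ax j) else 0) :=
          sum_congr rfl fun j hj => by
            have := mem_range.1 hj
            rw [if_pos (hA j (by omega)), h_A (by omega)]
      _ ≤ _ := sum_le_sum_of_subset (by
          intro j hj
          have := mem_range.1 hj
          exact mem_range.2 (by omega))
  omega

theorem load_sub (ρ : ℕ) (S : Finset ℕ) (hS : ∀ k ∈ S, k < p.n ∧ ρ ≤ rk k) :
    ∑ k ∈ S, p.hf k ≤ Ld p rk ρ := by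
  unfold Ld
  calc ∑ k ∈ S, p.hf k = ∑ k ∈ S, if ρ ≤ rk k then p.hf k else 0 :=
        sum_congr rfl fun k hk => by rw [if_pos (hS k hk).2]
    _ ≤ _ := sum_le_sum_of_subset fun k hk => mem_range.2 (hS k hk).1

variable (p) in
/-- The abstract properties of a schedule of the gadget instance. -/
structure Sch (rk Tr : ℕ → ℕ) : Prop where
  inj : ∀ a < p.n, ∀ b < p.n, rk a = rk b → a = b
  dl : ∀ a < p.n, Tr a + Ld p rk (rk a) ≤ p.df a
  mv : ∀ a < p.n, ∀ b < p.n, rk b < rk a → ds (p.posf b) (p.posf a) + Tr a ≤ Tr b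
  st : ∀ a < p.n, ds (p.posf a) 0 ≤ Tr a
  tot : ∀ a < p.n, ds 0 (p.posf a) + Tr a + (∑ k ∈ range p.n, p.hf k) ≤ p.T

variable (S : Sch p rk Tr)
include S

theorem Sch.order {a i : ℕ} (ha : a < p.n) (hi : i ≤ p.m) (hne : a ≠ p.Ax i)
    (hpos : 0 < p.hf a) (hd : p.df a ≤ p.H i) : rk (p.Ax i) < rk a := by
  by_contra hcon
  have h1 : rk a < rk (p.Ax i) := by
    rcases lt_or_eq_of_le (not_lt.1 hcon) with h | h
    · exact h
    · exact absurd (S.inj a ha _ (Ax_lt hi) h) hne
  have h2 := load_sub (p := p) (rk := rk) (rk a) {a, p.Ax i} (by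
    intro k hk
    rw [mem_insert, mem_singleton] at hk
    rcases hk with rfl | rfl
    · exact ⟨ha, le_rfl⟩
    · exact ⟨Ax_lt hi, h1.le⟩)
  rw [sum_pair hne, h_A hi] at h2
  have h3 := S.dl a ha
  omega

theorem Sch.F_A (hi : i ≤ p.m) : rk (p.Ax i) < rk p.Fx := by
  refine S.order Fx_lt hi (by unfold Fx Ax; omega) (by rw [h_F]; norm_num) ?_
  rw [d_F]
  have h0 := p.H0
  rcases Nat.eq_zero_or_pos i with h | h
  · subst h; unfold dF; omega
  · obtain ⟨j, rfl⟩ : ∃ j, i = j + 1 := ⟨i - 1, by omega⟩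
    have := p.H1 j (by omega)
    have := p.tW
    unfold dF; omega

theorem Sch.e_le {i j : ℕ} (hij : i < j) (hj : j ≤ p.m) : p.eI i ≤ p.H j := by
  obtain ⟨k, rfl⟩ : ∃ k, j = k + 1 := ⟨j - 1, by omega⟩
  refine le_trans ?_ (p.H1 k (by omega))
  have h1 := Gmono (p := p) (show i ≤ k by omega)
  have h2 := Pmono (p := p) (show i + 1 ≤ k + 1 by omega)
  have h3 := AAmono (p := p) (show i ≤ k by omega)
  have h4 : p.M i ≤ p.M k := by
    have : ∀ a b, a ≤ b → p.M a ≤ p.M b := by
      intro a b hab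
      induction b, hab using Nat.le_induction with
      | base => exact le_rfl
      | succ b _ ih => have := p.mon b; omega
    exact this i k (by omega)
  unfold eI
  omega

theorem Sch.A_A {i j : ℕ} (hij : i < j) (hj : j ≤ p.m) : rk (p.Ax j) < rk (p.Ax i) := by
  have hposH : 0 < p.H i := by
    rcases Nat.eq_zero_or_pos i with h | h
    · subst h; have := p.H0; omega
    · obtain ⟨k, rfl⟩ : ∃ k, i = k + 1 := ⟨i - 1, by omega⟩
      have := p.H1 k (by omega)
      omega
  refine S.order (Ax_lt (by omega)) hj (by unfold Ax; omega) (by rw [h_A (by omega)]; exact hposH) ?_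
  rw [d_A (by omega)]
  refine le_trans ?_ (S.e_le hij hj)
  have := p.tW
  unfold dA eI
  split_ifs with h
  · subst h
    have := p.A0
    omega
  · have := p.P1 i
    omega

theorem Sch.L_A {i j : ℕ} (hij : i < j) (hj : j ≤ p.m) : rk (p.Ax j) < rk (p.Lx i) := by
  refine S.order (Lx_lt (by omega)) hj (by unfold Ax Lx; omega) ?_ ?_
  · rw [h_L (by omega)]; have := p.dom i; omega
  · rw [d_L (by omega)]; exact S.e_le hij hj

theorem Sch.R_A {i j : ℕ} (hij : i < j) (hj : j ≤ p.m) : rk (p.Ax j) < rk (p.Rx i) := by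
  refine S.order (Rx_lt (by omega)) hj (by unfold Ax Rx; omega) ?_ ?_
  · rw [h_R (by omega)]; have := p.dom i; omega
  · rw [d_R (by omega)]; exact S.e_le hij hj

theorem Sch.Tr_F : 2 * p.X ≤ Tr p.Fx := by
  have := S.st p.Fx Fx_lt
  rw [pos_F] at this
  unfold ds at this; omega

theorem Sch.Tr_A (hi : i ≤ p.m) : 3 * p.X ≤ Tr (p.Ax i) := by
  have h1 := S.mv p.Fx Fx_lt (p.Ax i) (Ax_lt hi) (S.F_A hi)
  have h2 := S.Tr_F
  rw [pos_A hi, pos_F] at h1
  unfold ds at h1
  omega

/-- the distance of a pair job from the anchors -/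
theorem dist_LR {i q : ℕ} (hi : i < p.m) (hq : q = p.Lx i ∨ q = p.Rx i) {k : ℕ} (hk : k ≤ p.m) :
    p.M i ≤ ds (p.posf (p.Ax k)) (p.posf q) ∧ p.M i ≤ ds (p.posf q) (p.posf (p.Ax k)) := by
  have := p.bd i hi
  rcases hq with rfl | rfl
  · rw [pos_A hk, pos_L hi]; unfold ds; omega
  · rw [pos_A hk, pos_R hi]; unfold ds; omega

/-- If a job of the pair `i` comes (in reversed time) after `A 0`, it comes after `A i`. -/
theorem Sch.step_a {i : ℕ} (hi : i < p.m)
    (hpost : ∀ j, i < j → j < p.m → rk (p.Ax 0) < rk (p.Lx j) ∨ rk (p.Ax 0) < rk (p.Rx j))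
    (q : ℕ) (hq : q = p.Lx i ∨ q = p.Rx i) (h0 : ¬ rk (p.Ax 0) < rk q) : rk q < rk (p.Ax i) := by
  have hqn : q < p.n := by rcases hq with rfl | rfl; exacts [Lx_lt hi, Rx_lt hi]
  have hqA : ∀ k, q ≠ p.Ax k ∨ p.m < k := by
    intro k
    rcases hq with rfl | rfl
    · unfold Lx Ax; omega
    · unfold Rx Ax; omega
  by_contra hcon
  have hlt : ∀ k ≤ p.m, ¬ rk (p.Ax k) < rk q → rk q < rk (p.Ax k) := by
    intro k hk h
    rcases lt_or_eq_of_le (not_lt.1 h) with h' | h'
    · exact h'
    · exact absurd (S.inj q hqn _ (Ax_lt hk) h') ((hqA k).resolve_right (by omega))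
  have hex : ∃ k, rk (p.Ax k) < rk q := ⟨i, by
    by_contra hc; exact hcon (hlt i hi.le hc)⟩
  classical
  have hfi : Nat.find hex ≤ i := Nat.find_min' hex (by
    by_contra hc; exact hcon (hlt i hi.le hc))
  have hspec := Nat.find_spec hex
  have hf0 : Nat.find hex ≠ 0 := by
    intro e; rw [e] at hspec; exact h0 hspec
  obtain ⟨u, hu⟩ : ∃ u, Nat.find hex = u + 1 := ⟨Nat.find hex - 1, by omega⟩
  rw [hu] at hspec hfi
  have hu' : ¬ rk (p.Ax u) < rk q := Nat.find_min hex (by omega)
  have h1 := hlt u (by omega) hu'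
  -- at the anchor `u + 1`
  have hd := S.dl (p.Ax (u + 1)) (Ax_lt (by omega))
  rw [d_A (by omega)] at hd
  have m1 := S.mv q hqn (p.Ax (u + 1)) (Ax_lt (by omega)) hspec
  have m2 := S.mv (p.Ax u) (Ax_lt (by omega)) q hqn h1
  have d1 := (dist_LR S hi hq (show u + 1 ≤ p.m by omega)).1
  have d2 := (dist_LR S hi hq (show u ≤ p.m by omega)).2
  have tA := S.Tr_A (show u ≤ p.m by omega)
  have hload := load_ge (p := p) (rk := rk) (rk (p.Ax (u + 1))) (u + 1) i (2 * p.M i) (u + 1) hi hfi
    (by omega)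
    (fun j hj => ⟨(S.L_A hj (by omega)).le, (S.R_A hj (by omega)).le⟩)
    (by
      rcases hq with rfl | rfl
      · rw [if_pos hspec.le, h_L hi]; omega
      · rw [if_pos (c := rk (p.Ax (u + 1)) ≤ rk (p.Rx i)) hspec.le, h_R hi]; omega)
    (fun j hj hj' => by
      have h2 := S.A_A (show 0 < u + 1 by omega) (show u + 1 ≤ p.m by omega)
      rcases hpost j hj hj' with h | h
      · exact Or.inl (h2.trans h).le
      · exact Or.inr (h2.trans h).le)
    (fun j hj => by
      rcases Nat.lt_or_ge j (u + 1) with h | h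
      · exact (S.A_A h (by omega)).le
      · rw [show j = u + 1 by omega])
    (S.F_A (by omega)).le
  have hdA : p.dA (u + 1) = 3 * p.X + 1 + p.AA (u + 1) + 2 * p.G (u + 1) + p.G p.m +
      2 * p.P (u + 1) + 2 * p.W := by
    unfold dA; rw [if_neg (by omega)]
  have hG := p.G1 i
  have hdom := p.dom i
  omega

/-- Not both jobs of a pair come before `A 0`. -/
theorem Sch.step_b {i : ℕ} (hi : i < p.m)
    (hpost : ∀ j, i < j → j < p.m → rk (p.Ax 0) < rk (p.Lx j) ∨ rk (p.Ax 0) < rk (p.Rx j)) :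
    ¬ (rk (p.Ax 0) < rk (p.Lx i) ∧ rk (p.Ax 0) < rk (p.Rx i)) := by
  rintro ⟨hL, hR⟩
  have hd := S.dl (p.Ax 0) (Ax_lt (by omega))
  rw [d_A (by omega)] at hd
  have tA := S.Tr_A (show 0 ≤ p.m by omega)
  have hload := load_ge (p := p) (rk := rk) (rk (p.Ax 0)) 0 i (4 * p.M i) 0 hi (by omega)
    (by omega) (by intro j hj; omega)
    (by rw [if_pos hL.le, if_pos hR.le, h_L hi, h_R hi]; omega)
    (fun j hj hj' => by
      rcases hpost j hj hj' with h | h
      · exact Or.inl h.le
      · exact Or.inr h.le)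
    (fun j hj => by rw [show j = 0 by omega])
    (S.F_A (by omega)).le
  have hdA : p.dA 0 = 3 * p.X + 1 + p.H 0 + p.G p.m + 2 * p.t := by unfold dA; rw [if_pos rfl]
  have hG := p.G1 i
  have hdom := p.dom i
  have := p.tW
  have := p.A0
  omega

/-- Not both jobs of a pair come after `A i`. -/
theorem Sch.step_c {i : ℕ} (hi : i < p.m)
    (hpost : ∀ j, i < j → j < p.m → rk (p.Ax 0) < rk (p.Lx j) ∨ rk (p.Ax 0) < rk (p.Rx j)) :
    ¬ (rk (p.Lx i) < rk (p.Ax i) ∧ rk (p.Rx i) < rk (p.Ax i)) := by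
  rintro ⟨hL, hR⟩
  -- general argument for `a` being the last one
  have key : ∀ a b, (a = p.Lx i ∧ b = p.Rx i) ∨ (a = p.Rx i ∧ b = p.Lx i) → rk a < rk b → False := by
    intro a b hab hlt
    have ha : a = p.Lx i ∨ a = p.Rx i := by rcases hab with h | h; exacts [Or.inl h.1, Or.inr h.1]
    have hb : b = p.Lx i ∨ b = p.Rx i := by rcases hab with h | h; exacts [Or.inr h.2, Or.inl h.2]
    have han : a < p.n := by rcases ha with rfl | rfl; exacts [Lx_lt hi, Rx_lt hi]
    have hbn : b < p.n := by rcases hb with rfl | rfl; exacts [Lx_lt hi, Rx_lt hi]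
    have hbA : rk b < rk (p.Ax i) := by rcases hb with rfl | rfl; exacts [hL, hR]
    have haA : rk a < rk (p.Ax i) := hlt.trans hbA
    have hda : p.df a = p.eI i := by rcases ha with rfl | rfl; exacts [d_L hi, d_R hi]
    have hd := S.dl a han
    rw [hda] at hd
    have m1 := S.mv b hbn a han hlt
    have m2 := S.mv (p.Ax i) (Ax_lt hi.le) b hbn hbA
    have d2 := (dist_LR S hi hb hi.le).2
    have dab : 2 * p.M i ≤ ds (p.posf a) (p.posf b) := by
      have := p.bd i hi
      rcases hab with ⟨rfl, rfl⟩ | ⟨rfl, rfl⟩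
      · rw [pos_L hi, pos_R hi]; unfold ds; omega
      · rw [pos_L hi, pos_R hi]; unfold ds; omega
    have tA := S.Tr_A hi.le
    have hload := load_ge (p := p) (rk := rk) (rk a) i i (4 * p.M i + 2 * p.w i) i hi le_rfl
      hi.le
      (fun j hj => ⟨(haA.trans (S.L_A hj hi.le)).le, (haA.trans (S.R_A hj hi.le)).le⟩)
      (by
        have e1 : rk a ≤ rk (p.Lx i) := by
          rcases hab with ⟨rfl, rfl⟩ | ⟨rfl, rfl⟩
          · exact le_rfl
          · exact hlt.le
        have e2 : rk a ≤ rk (p.Rx i) := by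
          rcases hab with ⟨rfl, rfl⟩ | ⟨rfl, rfl⟩
          · exact hlt.le
          · exact le_rfl
        rw [if_pos e1, if_pos e2, h_L hi, h_R hi]; omega)
      (fun j hj hj' => by
        have h2 : rk (p.Ax i) ≤ rk (p.Ax 0) := by
          rcases Nat.eq_zero_or_pos i with h | h
          · rw [h]
          · exact (S.A_A h hi.le).le
        rcases hpost j hj hj' with h | h
        · exact Or.inl ((haA.trans_le h2).trans h).le
        · exact Or.inr ((haA.trans_le h2).trans h).le)
      (fun j hj => by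
        rcases Nat.lt_or_ge j i with h | h
        · exact (haA.trans (S.A_A h hi.le)).le
        · rw [show j = i by omega]; exact haA.le)
      (haA.trans (S.F_A hi.le)).le
    have hG := p.G1 i
    have hP := p.P1 i
    have hdom := p.dom i
    unfold eI at hd
    omega
  rcases lt_trichotomy (rk (p.Lx i)) (rk (p.Rx i)) with h | h | h
  · exact key _ _ (Or.inl ⟨rfl, rfl⟩) h
  · have := S.inj _ (Lx_lt hi) _ (Rx_lt hi) h
    unfold Lx Rx at this; omega
  · exact key _ _ (Or.inr ⟨rfl, rfl⟩) h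

/-- The structure of a schedule: one job of every pair comes before `A 0` and the other one after
`A i`. -/
theorem Sch.struct (i : ℕ) (hi : i < p.m) :
    (rk (p.Ax 0) < rk (p.Lx i) ∧ rk (p.Rx i) < rk (p.Ax i)) ∨
      (rk (p.Ax 0) < rk (p.Rx i) ∧ rk (p.Lx i) < rk (p.Ax i)) := by
  have main : ∀ d i, i < p.m → p.m - i ≤ d →
      (rk (p.Ax 0) < rk (p.Lx i) ∧ rk (p.Rx i) < rk (p.Ax i)) ∨
      (rk (p.Ax 0) < rk (p.Rx i) ∧ rk (p.Lx i) < rk (p.Ax i)) := by
    intro d
    induction d with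
    | zero => intro i hi hd; omega
    | succ d ih =>
      intro i hi hd
      have hpost : ∀ j, i < j → j < p.m →
          rk (p.Ax 0) < rk (p.Lx j) ∨ rk (p.Ax 0) < rk (p.Rx j) := by
        intro j hj hj'
        rcases ih j hj' (by omega) with h | h
        · exact Or.inl h.1
        · exact Or.inr h.1
      have hb := S.step_b hi hpost
      have hcc := S.step_c hi hpost
      have aL := S.step_a hi hpost (p.Lx i) (Or.inl rfl)
      have aR := S.step_a hi hpost (p.Rx i) (Or.inr rfl)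
      by_cases c1 : rk (p.Ax 0) < rk (p.Lx i)
      · have c2 : ¬ rk (p.Ax 0) < rk (p.Rx i) := fun h => hb ⟨c1, h⟩
        exact Or.inl ⟨c1, aR c2⟩
      · by_cases c2 : rk (p.Ax 0) < rk (p.Rx i)
        · exact Or.inr ⟨c2, aL c1⟩
        · exact absurd ⟨aL c1, aR c2⟩ hcc
  exact main (p.m - i) i hi le_rfl

/-- Soundness: the items whose left job is processed in a trip have sum `t`. -/
theorem Sch.sound : ∃ s : ℕ → Bool, ∑ i ∈ range p.m, (if s i then p.w i else 0) = p.t := by
  classical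
  let s : ℕ → Bool := fun i => decide (rk (p.Ax 0) < rk (p.Rx i))
  have hs : ∀ i < p.m, (s i = true → rk (p.Ax 0) < rk (p.Rx i) ∧ rk (p.Lx i) < rk (p.Ax i)) ∧
      (s i = false → rk (p.Ax 0) < rk (p.Lx i) ∧ rk (p.Rx i) < rk (p.Ax i)) := by
    intro i hi
    constructor
    · intro h
      have h' : rk (p.Ax 0) < rk (p.Rx i) := by simpa [s] using h
      rcases S.struct i hi with h2 | h2
      · exact absurd (h'.trans h2.2) (by
          rcases Nat.eq_zero_or_pos i with h3 | h3
          · subst h3; exact lt_irrefl _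
          · exact not_lt.2 (S.A_A h3 hi.le).le)
      · exact h2
    · intro h
      have h' : ¬ rk (p.Ax 0) < rk (p.Rx i) := by simpa [s] using h
      rcases S.struct i hi with h2 | h2
      · exact h2
      · exact absurd h2.1 h'
  refine ⟨s, ?_⟩
  have hsum : ∑ i ∈ range p.m, (if s i then p.w i else 0) +
      ∑ i ∈ range p.m, (if s i then 0 else p.w i) = p.W := by
    rw [← sum_add_distrib, ← p.PW, ← sum_w]
    exact sum_congr rfl fun i _ => by split_ifs <;> simp
  -- the load before `A 0`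
  have h1 : ∑ i ∈ range p.m, (if s i then p.w i else 0) ≤ p.t := by
    have hd := S.dl (p.Ax 0) (Ax_lt (by omega))
    rw [d_A (by omega)] at hd
    have tA := S.Tr_A (show 0 ≤ p.m by omega)
    have hdA : p.dA 0 = 3 * p.X + 1 + p.H 0 + p.G p.m + 2 * p.t := by unfold dA; rw [if_pos rfl]
    have hl : 1 + p.H 0 + p.G p.m + 2 * ∑ i ∈ range p.m, (if s i then p.w i else 0) ≤
        Ld p rk (rk (p.Ax 0)) := by
      unfold Ld
      rw [sum_jobs, if_pos (S.F_A (Nat.zero_le _)).le, h_F]
      have e1 : p.G p.m + 2 * ∑ i ∈ range p.m, (if s i then p.w i else 0) ≤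
          ∑ i ∈ range p.m, ((if rk (p.Ax 0) ≤ rk (p.Lx i) then p.hf (p.Lx i) else 0) +
            (if rk (p.Ax 0) ≤ rk (p.Rx i) then p.hf (p.Rx i) else 0)) := by
        rw [← sum_M, mul_sum, ← sum_add_distrib]
        refine sum_le_sum fun i hi => ?_
        have hi' := mem_range.1 hi
        cases hsi : s i with
        | true =>
          have := ((hs i hi').1 hsi).1
          rw [if_pos this.le, h_R hi']
          simp
        | false =>
          have := ((hs i hi').2 hsi).1
          rw [if_pos this.le, h_L hi']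
          simp
      have e2 : p.H 0 ≤ ∑ i ∈ range (p.m + 1), (if rk (p.Ax 0) ≤ rk (p.Ax i) then
          p.hf (p.Ax i) else 0) := by
        have : (if rk (p.Ax 0) ≤ rk (p.Ax 0) then p.hf (p.Ax 0) else 0) = p.H 0 := by
          rw [if_pos le_rfl, h_A (by omega)]
        rw [← this]
        exact single_le_sum (f := fun i => if rk (p.Ax 0) ≤ rk (p.Ax i) then
          p.hf (p.Ax i) else 0) (fun i _ => Nat.zero_le _) (mem_range.2 (by omega))
      omega
    omega
  -- the total travel
  have h2 : ∑ i ∈ range p.m, (if s i then 0 else p.w i) ≤ p.W - p.t := by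
    have htr : ∀ k ≤ p.m, 3 * p.X + p.G k + 2 * ∑ i ∈ range k, (if s i then 0 else p.w i) ≤
        Tr (p.Ax k) := by
      intro k
      induction k with
      | zero =>
        intro _
        have := S.Tr_A (show 0 ≤ p.m by omega)
        simp [p.G0]
        exact this
      | succ k ih =>
        intro hk
        have ih' := ih (by omega)
        rw [sum_range_succ]
        have hG := p.G1 k
        have hbd := p.bd k (by omega)
        cases hsk : s k with
        | true =>
          have hq := ((hs k (by omega)).1 hsk).2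
          have m1 := S.mv (p.Lx k) (Lx_lt (by omega)) (p.Ax (k + 1)) (Ax_lt hk)
            (S.L_A (Nat.lt_succ_self k) hk)
          have m2 := S.mv (p.Ax k) (Ax_lt (by omega)) (p.Lx k) (Lx_lt (by omega)) hq
          rw [pos_A (by omega), pos_L (by omega)] at m1
          rw [pos_A (by omega), pos_L (by omega)] at m2
          unfold ds at m1 m2
          simp only [if_true]
          omega
        | false =>
          have hq := ((hs k (by omega)).2 hsk).2
          have m1 := S.mv (p.Rx k) (Rx_lt (by omega)) (p.Ax (k + 1)) (Ax_lt hk)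
            (S.R_A (Nat.lt_succ_self k) hk)
          have m2 := S.mv (p.Ax k) (Ax_lt (by omega)) (p.Rx k) (Rx_lt (by omega)) hq
          rw [pos_A (by omega), pos_R (by omega)] at m1
          rw [pos_A (by omega), pos_R (by omega)] at m2
          unfold ds at m1 m2
          simp only [Bool.false_eq_true, if_false]
          omega
    have h3 := htr p.m le_rfl
    have h4 := S.tot (p.Ax p.m) (Ax_lt le_rfl)
    rw [sumH_total, pos_A le_rfl] at h4
    unfold T ds at h4
    omega
  have := p.tW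
  omega

end sound

end Par

end Pool.Agent.Q231.Line
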