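import Mathlib

set_option autoImplicit false

/-!
# Single-vehicle scheduling on a line with release and handling times

An instance consists of the list `vs` of the vertices of a path, in the order along the path, each
with its release time and its handling time, the list `es` of the edges of the path, in the same
order, each with the travel time to the right and the travel time to the left, the index `s` of the
start vertex, and the bound `K`.
-/

namespace Pool.Agent.Q231.Line

/-- An instance `(vs, es, s, K)`. -/
abbrev Inst := List (ℕ × ℕ) × List (ℕ × ℕ) × ℕ × ℕ

/-- The travel time from the `a`-th to the `b`-th vertex. -/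
def trav (es : List (ℕ × ℕ)) (a b : ℕ) : ℕ :=
  if a ≤ b then (((es.drop a).take (b - a)).map Prod.fst).sum
  else (((es.drop b).take (a - b)).map Prod.snd).sum

/-- Release time of a job. -/
def rel (vs : List (ℕ × ℕ)) (j : ℕ) : ℕ := (vs.getD j (0, 0)).1

/-- Handling time of a job. -/
def hand (vs : List (ℕ × ℕ)) (j : ℕ) : ℕ := (vs.getD j (0, 0)).2

/-- `finish vs es s p τ l`: the vehicle is at the vertex `p` at time `τ`; it processes the jobs of
the list `l` in this order, waiting at a vertex for the release of its job if necessary, and returns
to the vertex `s`. The value is the time of its return. -/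
def finish (vs es : List (ℕ × ℕ)) (s : ℕ) : ℕ → ℕ → List ℕ → ℕ
  | p, τ, [] => τ + trav es p s
  | p, τ, j :: l => finish vs es s j (max (τ + trav es p j) (rel vs j) + hand vs j) l

/-- The data describe a path: one edge less than vertices, and `s` is a vertex. -/
def IsPath (I : Inst) : Prop := I.2.1.length + 1 = I.1.length ∧ I.2.2.1 < I.1.length

/-- The decision problem: is there a schedule, that is a permutation of all jobs, after which the
vehicle is back at the start vertex not later than `K`? -/
def LineScheduling (I : Inst) : Prop :=
  IsPath I ∧ ∃ l : List ℕ, l.Perm (List.range I.1.length) ∧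
    finish I.1 I.2.1 I.2.2.1 I.2.2.1 0 l ≤ I.2.2.2

/-- Paths with symmetric travel times on which all handling times are positive. -/
def Positive (I : Inst) : Prop :=
  IsPath I ∧ (∀ v ∈ I.1, 0 < v.2) ∧ ∀ e ∈ I.2.1, e.1 = e.2

end Pool.Agent.Q231.Line
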