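import Pool.Agent.Q231.Line.Red
import Pool.Agent.NPC.Dec

set_option autoImplicit false

/-!
# Polynomial time computability of the reduction, and membership in NP
-/

namespace Pool.Agent.Q231.Line

open Pool.Agent.NPC

theorem two_pow_poly {α : Type} [TEnc α] {e u : α → ℕ} (he : Poly e) (hu : UPoly u)
    (h : ∀ a, e a ≤ u a) : Poly (fun a => 2 ^ (e a)) := by
  have h1 : Poly (fun a => List.replicate (e a) ()) := UPoly.of_le he hu h
  have h2 : Poly (fun a => valB ((List.replicate (e a) ()).map (fun _ => false) ++ [true])) := by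
    refine Poly.valBits ?_
    fun_prop
  refine h2.congr fun a => ?_
  rw [List.map_replicate, valB_replicate_false]
  simp

/-- capped `M` -/
def MMc (ws : List ℕ) (i : ℕ) : ℕ := MM ws (min i ws.length)
/-- capped `G` -/
def GGc (ws : List ℕ) (i : ℕ) : ℕ := GG ws (min i ws.length)
/-- capped `H` -/
def HHc (ws : List ℕ) (i : ℕ) : ℕ := HH ws (min i ws.length)
/-- capped `AA` -/
def AAc (ws : List ℕ) (i : ℕ) : ℕ := AAA ws (min i ws.length)

section
variable {α : Type} [TEnc α] {l : α → List ℕ} {i : α → ℕ}

theorem BB_poly (hl : Poly l) : Poly (fun a => BB (l a)) := by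
  unfold BB; fun_prop

attribute [local fun_prop] BB_poly

theorem four_pow_poly (hl : Poly l) (hi : Poly i) : Poly (fun a => 4 ^ (min (i a) (l a).length)) := by
  have h1 : Poly (fun a => 2 ^ (min (i a) (l a).length)) :=
    two_pow_poly (by fun_prop) (UPoly.length hl) (fun a => min_le_right _ _)
  refine (Poly.mul h1 h1).congr fun a => ?_
  rw [← mul_pow]
  norm_num

attribute [local fun_prop] four_pow_poly

theorem XX_poly (hl : Poly l) : Poly (fun a => XX (l a)) := by
  unfold XX
  have h := four_pow_poly hl (Poly.length hl)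
  simp only [min_self] at h
  fun_prop

attribute [local fun_prop] XX_poly

theorem MMc_poly (hl : Poly l) (hi : Poly i) : Poly (fun a => MMc (l a) (i a)) := by
  unfold MMc MM; fun_prop

theorem GGc_poly (hl : Poly l) (hi : Poly i) : Poly (fun a => GGc (l a) (i a)) := by
  unfold GGc GG; fun_prop

theorem HHc_poly (hl : Poly l) (hi : Poly i) : Poly (fun a => HHc (l a) (i a)) := by
  unfold HHc HH
  have h1 : Poly (fun a => 2 ^ (min (i a) (l a).length)) :=
    two_pow_poly (by fun_prop) (UPoly.length hl) (fun a => min_le_right _ _)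
  fun_prop

theorem AAc_poly (hl : Poly l) (hi : Poly i) : Poly (fun a => AAc (l a) (i a)) := by
  unfold AAc AAA
  have h1 : Poly (fun a => 2 ^ (min (i a) (l a).length + 1)) :=
    two_pow_poly (by fun_prop) ((UPoly.length hl).add (UPoly.const 1))
      (fun a => Nat.add_le_add_right (min_le_right _ _) 1)
  fun_prop

theorem take_eq (l : List ℕ) (k n : ℕ) :
    ((l.zipIdx k).filter (fun q => decide (q.2 < n))).map Prod.fst = l.take (n - k) := by
  induction l generalizing k with
  | nil => simp
  | cons a l ih =>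
    rw [List.zipIdx_cons, List.filter_cons]
    by_cases h : k < n
    · simp only [h, decide_true, if_true, List.map_cons, ih]
      rw [show n - k = (n - (k + 1)) + 1 by omega, List.take_succ_cons]
    · simp only [h, decide_false, Bool.false_eq_true, if_false, ih]
      rw [show n - k = 0 by omega, show n - (k + 1) = 0 by omega]
      simp

theorem PP_poly (hl : Poly l) (hi : Poly i) : Poly (fun a => PP (l a) (i a)) := by
  have h : Poly (fun a => (((l a).zipIdx.filter (fun q => decide (q.2 < i a))).map Prod.fst).sum) := by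
    fun_prop
  refine h.congr fun a => ?_
  rw [take_eq]
  rfl

end

attribute [local fun_prop] BB_poly XX_poly MMc_poly GGc_poly HHc_poly AAc_poly PP_poly

/-- the bound -/
def TT (x : List ℕ × ℕ) : ℕ :=
  4 * XX x.1 + 2 + AAc x.1 x.1.length + 3 * GGc x.1 x.1.length + 2 * x.1.sum + 2 * (x.1.sum - x.2)

/-- deadline of pair jobs -/
def eR (x : List ℕ × ℕ) (i : ℕ) : ℕ :=
  3 * XX x.1 + 1 + AAc x.1 i + 2 * GGc x.1 i + 3 * MMc x.1 i + GGc x.1 x.1.length +
    2 * PP x.1 (i + 1) + 2 * x.1.sum

/-- deadline of anchors -/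
def aR (x : List ℕ × ℕ) (i : ℕ) : ℕ :=
  if i = 0 then 3 * XX x.1 + 1 + HHc x.1 0 + GGc x.1 x.1.length + 2 * x.2
  else 3 * XX x.1 + 1 + AAc x.1 i + 2 * GGc x.1 i + GGc x.1 x.1.length + 2 * PP x.1 i + 2 * x.1.sum

/-- positions -/
def pR (x : List ℕ × ℕ) (k : ℕ) : ℕ :=
  if k = 0 then 0 else if k ≤ x.1.length then XX x.1 - MMc x.1 (x.1.length - k)
  else if k ≤ 2 * x.1.length + 1 then XX x.1
  else if k ≤ 3 * x.1.length + 1 then
    XX x.1 + MMc x.1 (k - (2 * x.1.length + 2)) + x.1.getD (k - (2 * x.1.length + 2)) 0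
  else 2 * XX x.1

/-- handling times -/
def hR (x : List ℕ × ℕ) (k : ℕ) : ℕ :=
  if k = 0 then 1 else if k ≤ x.1.length then 2 * MMc x.1 (x.1.length - k)
  else if k ≤ 2 * x.1.length + 1 then HHc x.1 (k - (x.1.length + 1))
  else if k ≤ 3 * x.1.length + 1 then
    2 * MMc x.1 (k - (2 * x.1.length + 2)) + 2 * x.1.getD (k - (2 * x.1.length + 2)) 0
  else 1

/-- deadlines -/
def dR (x : List ℕ × ℕ) (k : ℕ) : ℕ :=
  if k = 0 then TT x else if k ≤ x.1.length then eR x (x.1.length - k)
  else if k ≤ 2 * x.1.length + 1 then aR x (k - (x.1.length + 1))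
  else if k ≤ 3 * x.1.length + 1 then eR x (k - (2 * x.1.length + 2))
  else 2 * XX x.1 + 1 + GGc x.1 x.1.length + 2 * x.2

/-- the reduction -/
def red (x : List ℕ × ℕ) : Inst :=
  ((List.range (3 * x.1.length + 3)).map (fun k => (TT x - dR x k, hR x k)),
    (List.range (3 * x.1.length + 2)).map (fun k => (pR x (k + 1) - pR x k, pR x (k + 1) - pR x k)),
    0, TT x)

section
variable {α : Type} [TEnc α] {x : α → List ℕ × ℕ} {k : α → ℕ}

theorem TT_poly (hx : Poly x) : Poly (fun a => TT (x a)) := by
  unfold TT; fun_prop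
theorem eR_poly (hx : Poly x) (hk : Poly k) : Poly (fun a => eR (x a) (k a)) := by
  unfold eR; fun_prop
theorem aR_poly (hx : Poly x) (hk : Poly k) : Poly (fun a => aR (x a) (k a)) := by
  unfold aR; fun_prop
theorem pR_poly (hx : Poly x) (hk : Poly k) : Poly (fun a => pR (x a) (k a)) := by
  unfold pR; fun_prop
theorem hR_poly (hx : Poly x) (hk : Poly k) : Poly (fun a => hR (x a) (k a)) := by
  unfold hR; fun_prop

attribute [local fun_prop] TT_poly eR_poly aR_poly

theorem dR_poly (hx : Poly x) (hk : Poly k) : Poly (fun a => dR (x a) (k a)) := by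
  unfold dR; fun_prop

end

attribute [local fun_prop] TT_poly pR_poly hR_poly dR_poly

theorem red_poly : Poly red := by
  unfold red
  have h1 : Poly (fun x : List ℕ × ℕ => List.range (3 * x.1.length + 3)) :=
    (((UPoly.const 3).mul (UPoly.length (Poly.fst Poly.id))).add (UPoly.const 3)).range
  have h2 : Poly (fun x : List ℕ × ℕ => List.range (3 * x.1.length + 2)) :=
    (((UPoly.const 3).mul (UPoly.length (Poly.fst Poly.id))).add (UPoly.const 2)).range
  fun_prop

theorem ite5 {k m a b c d e a' b' c' d' e' : ℕ} (ha : a = a') (hb : k ≤ m → b = b')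
    (hc : k ≤ 2 * m + 1 → c = c') (hd : k ≤ 3 * m + 1 → d = d') (he : e = e') :
    (if k = 0 then a else if k ≤ m then b else if k ≤ 2 * m + 1 then c
      else if k ≤ 3 * m + 1 then d else e) =
    (if k = 0 then a' else if k ≤ m then b' else if k ≤ 2 * m + 1 then c'
      else if k ≤ 3 * m + 1 then d' else e') := by
  split_ifs with h1 h2 h3 h4
  · exact ha
  · exact hb h2
  · exact hc h3
  · exact hd h4
  · exact he

theorem red_eq (x : List ℕ × ℕ) (h : x.2 ≤ x.1.sum) : red x = (par x.1 x.2 h).toInst := by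
  obtain ⟨ws, t⟩ := x
  have hT : TT (ws, t) = (par ws t h).T := by
    simp only [TT, Par.T, par, AAc, GGc, min_self]
  have he : ∀ i ≤ ws.length, eR (ws, t) i = (par ws t h).eI i := by
    intro i hi
    simp only [eR, Par.eI, par, AAc, GGc, MMc, min_self, min_eq_left hi]
  have ha : ∀ i ≤ ws.length, aR (ws, t) i = (par ws t h).dA i := by
    intro i hi
    simp only [aR, Par.dA, par, AAc, GGc, HHc, min_self, min_eq_left hi, Nat.zero_min]
  have hp : ∀ k, pR (ws, t) k = (par ws t h).posf k := by
    intro k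
    refine ite5 rfl (fun hk => ?_) (fun _ => rfl) (fun hk => ?_) rfl
    · show XX ws - MM ws (min (ws.length - k) ws.length) = XX ws - MM ws (ws.length - k)
      rw [min_eq_left (by omega)]
    · show XX ws + MM ws (min (k - (2 * ws.length + 2)) ws.length) +
        ws.getD (k - (2 * ws.length + 2)) 0 =
        XX ws + MM ws (k - (2 * ws.length + 2)) + ws.getD (k - (2 * ws.length + 2)) 0
      have hk' : k ≤ 3 * ws.length + 1 := hk
      rw [min_eq_left (by omega)]
  have hh : ∀ k, hR (ws, t) k = (par ws t h).hf k := by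
    intro k
    refine ite5 rfl (fun hk => ?_) (fun hk => ?_) (fun hk => ?_) rfl
    · show 2 * MM ws (min (ws.length - k) ws.length) = 2 * MM ws (ws.length - k)
      rw [min_eq_left (by omega)]
    · show HH ws (min (k - (ws.length + 1)) ws.length) = HH ws (k - (ws.length + 1))
      have hk' : k ≤ 2 * ws.length + 1 := hk
      rw [min_eq_left (by omega)]
    · show 2 * MM ws (min (k - (2 * ws.length + 2)) ws.length) +
        2 * ws.getD (k - (2 * ws.length + 2)) 0 =
        2 * MM ws (k - (2 * ws.length + 2)) + 2 * ws.getD (k - (2 * ws.length + 2)) 0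
      have hk' : k ≤ 3 * ws.length + 1 := hk
      rw [min_eq_left (by omega)]
  have hd : ∀ k, dR (ws, t) k = (par ws t h).df k := by
    intro k
    refine ite5 hT (fun hk => ?_) (fun hk => ?_) (fun hk => ?_) ?_
    · exact he _ (by show ws.length - k ≤ ws.length; omega)
    · have hk' : k ≤ 2 * ws.length + 1 := hk
      exact ha _ (by show k - (ws.length + 1) ≤ ws.length; omega)
    · have hk' : k ≤ 3 * ws.length + 1 := hk
      exact he _ (by show k - (2 * ws.length + 2) ≤ ws.length; omega)
    · show 2 * XX ws + 1 + GG ws (min ws.length ws.length) + 2 * t =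
        2 * XX ws + 1 + GG ws ws.length + 2 * t
      rw [min_self]
  unfold red Par.toInst mkI
  simp only [hT, hp, hh, hd]
  rfl

/-- Hardness, for paths with symmetric travel times and positive handling times. -/
theorem hardPr : HardPr Positive LineScheduling := by
  refine Pool.Agent.NPC.R671.SS.hardPr_SubsetSum.trans red_poly ?_ ?_
  · intro x hx
    rw [red_eq x hx.2.le]
    exact Par.toInst_positive _
  · intro x hx
    rw [red_eq x hx.2.le, Par.toInst_correct]
    exact sublist_iff x.1 x.2

end Pool.Agent.Q231.Line
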