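import Pool.Agent.Q231.Line.Comp
import Pool.Agent.H671R2.SubsetSum

set_option autoImplicit false

/-!
# The reduction from subset sum
-/

namespace Pool.Agent.Q231.Line

open Finset

/-! ### From positions to edges -/

/-- the instance with given positions, releases and handling times -/
def mkI (pos r h : ℕ → ℕ) (n K : ℕ) : Inst :=
  ((List.range n).map (fun k => (r k, h k)),
    (List.range (n - 1)).map (fun k => (pos (k + 1) - pos k, pos (k + 1) - pos k)), 0, K)

theorem tele (f : ℕ → ℕ) (a k : ℕ) (hf : ∀ i, a ≤ i → i < a + k → f i ≤ f (i + 1)) :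
    f a ≤ f (a + k) ∧
    ((List.range' a k).map fun i => f (i + 1) - f i).sum = f (a + k) - f a := by
  induction k with
  | zero => simp
  | succ k ih =>
    obtain ⟨h1, h2⟩ := ih fun i hi hi' => hf i hi (by omega)
    have h3 := hf (a + k) (by omega) (by omega)
    rw [List.range'_concat, List.map_append, List.sum_append, h2]
    simp only [List.map_cons, List.map_nil, List.sum_cons, List.sum_nil, one_mul]
    rw [show a + (k + 1) = a + k + 1 by omega]
    omega

theorem drop_take_range (N a k : ℕ) (h : a + k ≤ N) :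
    ((List.range N).drop a).take k = List.range' a k := by
  refine List.ext_getElem ?_ ?_
  · simp; omega
  · intro i h1 h2
    simp

theorem trav_mk (pos : ℕ → ℕ) (n a b : ℕ) (hpos : ∀ i, i + 1 < n → pos i ≤ pos (i + 1))
    (ha : a < n) (hb : b < n) :
    trav ((List.range (n - 1)).map (fun k => (pos (k + 1) - pos k, pos (k + 1) - pos k))) a b =
      ds (pos a) (pos b) := by
  unfold trav
  have key : ∀ a b, a ≤ b → b < n →
      ((((List.range (n - 1)).drop a).take (b - a)).map fun k => pos (k + 1) - pos k).sum =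
        pos b - pos a ∧ pos a ≤ pos b := by
    intro a b hab hb
    rw [drop_take_range (n - 1) a (b - a) (by omega)]
    have := tele pos a (b - a) (fun i _ hi => hpos i (by omega))
    rw [show a + (b - a) = b by omega] at this
    exact ⟨this.2, this.1⟩
  split_ifs with h
  · rw [← List.map_drop, ← List.map_take, List.map_map]
    have := key a b h hb
    have e : (Prod.fst ∘ fun k => (pos (k + 1) - pos k, pos (k + 1) - pos k)) =
        fun k => pos (k + 1) - pos k := rfl
    rw [e, this.1]
    unfold ds; omega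
  · rw [← List.map_drop, ← List.map_take, List.map_map]
    have := key b a (by omega) ha
    have e : (Prod.snd ∘ fun k => (pos (k + 1) - pos k, pos (k + 1) - pos k)) =
        fun k => pos (k + 1) - pos k := rfl
    rw [e, this.1]
    unfold ds; omega

theorem finish_mk (pos r h : ℕ → ℕ) (n K : ℕ) (hpos : ∀ i, i + 1 < n → pos i ≤ pos (i + 1))
    (l : List ℕ) (hl : ∀ k ∈ l, k < n) (x : ℕ) (hx : x < n) (τ : ℕ) (hn : 0 < n) :
    finish (mkI pos r h n K).1 (mkI pos r h n K).2.1 0 x τ l = fin' pos r h (pos 0) (pos x) τ l := by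
  induction l generalizing x τ with
  | nil =>
    simp only [finish, fin', mkI]
    rw [trav_mk pos n x 0 hpos hx hn]
  | cons j l ih =>
    have hj := hl j List.mem_cons_self
    have e1 : rel (mkI pos r h n K).1 j = r j := by
      simp [rel, mkI, List.getD, hj]
    have e2 : hand (mkI pos r h n K).1 j = h j := by
      simp [hand, mkI, List.getD, hj]
    have e3 : trav (mkI pos r h n K).2.1 x j = ds (pos x) (pos j) := trav_mk pos n x j hpos hx hj
    simp only [finish, fin']
    rw [e1, e2, e3]
    exact ih (fun k hk => hl k (List.mem_cons_of_mem _ hk)) j hj _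

theorem lineScheduling_mk (pos r h : ℕ → ℕ) (n K : ℕ) (hpos : ∀ i, i + 1 < n → pos i ≤ pos (i + 1))
    (hn : 0 < n) (h0 : pos 0 = 0) :
    LineScheduling (mkI pos r h n K) ↔
      ∃ l : List ℕ, l.Perm (List.range n) ∧ fin' pos r h 0 0 0 l ≤ K := by
  have hlen : (mkI pos r h n K).1.length = n := by simp [mkI]
  have hP : IsPath (mkI pos r h n K) := by
    unfold IsPath
    simp only [mkI, List.length_map, List.length_range]
    omega
  unfold LineScheduling
  rw [hlen]
  constructor
  · rintro ⟨-, l, hl, hfin⟩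
    refine ⟨l, hl, ?_⟩
    have := finish_mk pos r h n K hpos l (fun k hk => List.mem_range.1 (hl.mem_iff.1 hk)) 0 hn 0 hn
    rw [h0] at this
    rw [← this]
    exact hfin
  · rintro ⟨l, hl, hfin⟩
    refine ⟨hP, l, hl, ?_⟩
    have := finish_mk pos r h n K hpos l (fun k hk => List.mem_range.1 (hl.mem_iff.1 hk)) 0 hn 0 hn
    rw [h0] at this
    show finish (mkI pos r h n K).1 (mkI pos r h n K).2.1 0 0 0 l ≤ K
    rw [this]
    exact hfin

theorem positive_mk (pos r h : ℕ → ℕ) (n K : ℕ) (hn : 0 < n) (hh : ∀ k < n, 0 < h k) :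
    Positive (mkI pos r h n K) := by
  refine ⟨?_, ?_, ?_⟩
  · unfold IsPath
    simp only [mkI, List.length_map, List.length_range]
    omega
  · intro v hv
    simp only [mkI, List.mem_map, List.mem_range] at hv
    obtain ⟨k, hk, rfl⟩ := hv
    exact hh k hk
  · intro e he
    simp only [mkI, List.mem_map, List.mem_range] at he
    obtain ⟨k, hk, rfl⟩ := he
    rfl

namespace Par
variable (p : Par)

theorem posf_mono (i : ℕ) (hi : i + 1 < p.n) : p.posf i ≤ p.posf (i + 1) := by
  unfold n at hi
  by_cases h0 : i = 0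
  · subst h0; rw [pos_V]; exact Nat.zero_le _
  by_cases h1 : i + 1 ≤ p.m
  · have e1 : i = p.Lx (p.m - i) := by unfold Lx; omega
    have e2 : i + 1 = p.Lx (p.m - (i + 1)) := by unfold Lx; omega
    rw [e1, pos_L (by omega), ← e1, e2, pos_L (by omega)]
    have := M_mono (p := p) (show p.m - (i + 1) ≤ p.m - i by omega)
    omega
  by_cases h2 : i ≤ p.m
  · have e1 : i = p.Lx 0 := by unfold Lx; omega
    have e2 : i + 1 = p.Ax 0 := by unfold Ax; omega
    rw [e2, pos_A (by omega), e1, pos_L (by omega)]
    omega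
  by_cases h3 : i + 1 ≤ 2 * p.m + 1
  · have e1 : i = p.Ax (i - (p.m + 1)) := by unfold Ax; omega
    have e2 : i + 1 = p.Ax (i + 1 - (p.m + 1)) := by unfold Ax; omega
    rw [e1, pos_A (by omega), ← e1, e2, pos_A (by omega)]
  by_cases h4 : i ≤ 2 * p.m + 1
  · have e1 : i = p.Ax (i - (p.m + 1)) := by unfold Ax; omega
    rcases Nat.eq_zero_or_pos p.m with h | h
    · have e2 : i + 1 = p.Fx := by unfold Fx; omega
      rw [e1, pos_A (by omega), ← e1, e2, pos_F]; omega
    · have e2 : i + 1 = p.Rx 0 := by unfold Rx; omega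
      rw [e1, pos_A (by omega), ← e1, e2, pos_R h]; omega
  by_cases h5 : i + 1 ≤ 3 * p.m + 1
  · have e1 : i = p.Rx (i - (2 * p.m + 2)) := by unfold Rx; omega
    have e2 : i + 1 = p.Rx (i + 1 - (2 * p.m + 2)) := by unfold Rx; omega
    have := p.mon (i - (2 * p.m + 2))
    rw [e1, pos_R (by omega), ← e1, e2, pos_R (by omega),
      show i + 1 - (2 * p.m + 2) = i - (2 * p.m + 2) + 1 by omega]
    omega
  · have e1 : i = p.Rx (i - (2 * p.m + 2)) := by unfold Rx; omega
    have e2 : i + 1 = p.Fx := by unfold Fx; omega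
    have := p.bd (i - (2 * p.m + 2)) (by omega)
    rw [e1, pos_R (by omega), ← e1, e2, pos_F]
    omega

theorem hf_pos (k : ℕ) (hk : k < p.n) : 0 < p.hf k := by
  unfold n at hk
  have hM : ∀ i, 0 < p.M i := fun i => by have := p.dom i; omega
  have hH : ∀ i ≤ p.m, 0 < p.H i := by
    intro i hi
    rcases Nat.eq_zero_or_pos i with h | h
    · subst h; have := p.H0; omega
    · obtain ⟨k, rfl⟩ : ∃ k, i = k + 1 := ⟨i - 1, by omega⟩
      have := p.H1 k (by omega)
      omega
  unfold hf
  split_ifs with h1 h2 h3 h4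
  · norm_num
  · have := hM (p.m - k); omega
  · exact hH _ (by omega)
  · have := hM (k - (2 * p.m + 2)); omega
  · norm_num

/-- the instance -/
def toInst : Inst := mkI p.posf (fun k => p.T - p.df k) p.hf p.n p.T

theorem toInst_correct : LineScheduling p.toInst ↔
    ∃ s : ℕ → Bool, ∑ i ∈ range p.m, (if s i then p.w i else 0) = p.t := by
  unfold toInst
  rw [lineScheduling_mk _ _ _ _ _ p.posf_mono (by unfold n; omega) pos_V]
  exact correct

theorem toInst_positive : Positive p.toInst :=
  positive_mk _ _ _ _ _ (by unfold n; omega) p.hf_pos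

end Par

/-! ### The numbers -/

/-- `B` -/
def BB (ws : List ℕ) : ℕ := ws.sum + 1
/-- `X` -/
def XX (ws : List ℕ) : ℕ := BB ws * 4 ^ ws.length
/-- `M i` -/
def MM (ws : List ℕ) (i : ℕ) : ℕ := BB ws * 4 ^ i
/-- `G i` -/
def GG (ws : List ℕ) (i : ℕ) : ℕ := 2 * BB ws * ((4 ^ i - 1) / 3)
/-- `P i` -/
def PP (ws : List ℕ) (i : ℕ) : ℕ := (ws.take i).sum
/-- `H i` -/
def HH (ws : List ℕ) (i : ℕ) : ℕ := 16 * XX ws * 2 ^ i
/-- `AA i` -/
def AAA (ws : List ℕ) (i : ℕ) : ℕ := 16 * XX ws * (2 ^ (i + 1) - 1)

theorem four_pow (i : ℕ) : 3 * ((4 ^ i - 1) / 3) + 1 = 4 ^ i := by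
  induction i with
  | zero => norm_num
  | succ i ih =>
    have h : 4 ^ (i + 1) = 4 * 4 ^ i := by ring
    have h2 : 4 ^ (i + 1) - 1 = 3 * (4 * ((4 ^ i - 1) / 3) + 1) := by omega
    rw [h2, Nat.mul_div_cancel_left _ (by norm_num)]
    omega

theorem getD_le_sum (ws : List ℕ) (i : ℕ) : ws.getD i 0 ≤ ws.sum := by
  rcases Nat.lt_or_ge i ws.length with h | h
  · rw [List.getD_eq_getElem _ _ h]
    exact List.single_le_sum (fun _ _ => Nat.zero_le _) _ (List.getElem_mem h)
  · rw [List.getD_eq_default _ _ h]; exact Nat.zero_le _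

theorem three_GG (ws : List ℕ) (i : ℕ) : 3 * GG ws i + 2 * BB ws = 2 * MM ws i := by
  have := four_pow i
  unfold GG MM
  calc 3 * (2 * BB ws * ((4 ^ i - 1) / 3)) + 2 * BB ws =
      2 * BB ws * (3 * ((4 ^ i - 1) / 3) + 1) := by ring
    _ = _ := by rw [this]; ring

theorem MM_succ (ws : List ℕ) (i : ℕ) : MM ws (i + 1) = 4 * MM ws i := by
  unfold MM; rw [pow_succ]; ring

theorem MM_ge (ws : List ℕ) (i : ℕ) : BB ws ≤ MM ws i := by
  unfold MM
  exact Nat.le_mul_of_pos_right _ (by positivity)

theorem MM_lt (ws : List ℕ) (i : ℕ) (hi : i < ws.length) : 4 * MM ws i ≤ XX ws := by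
  rw [← MM_succ]
  unfold MM XX
  exact Nat.mul_le_mul_left _ (Nat.pow_le_pow_right (by norm_num) hi)

theorem PP_succ (ws : List ℕ) (i : ℕ) : PP ws (i + 1) = PP ws i + ws.getD i 0 := by
  unfold PP
  rcases Nat.lt_or_ge i ws.length with h | h
  · rw [List.take_add_one, List.getD_eq_getElem _ _ h, List.sum_append, List.getElem?_eq_getElem h]
    simp
  · rw [List.getD_eq_default _ _ h, List.take_of_length_le h, List.take_of_length_le (by omega)]
    rfl

theorem PP_le (ws : List ℕ) (i : ℕ) : PP ws i ≤ ws.sum := by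
  unfold PP
  conv_rhs => rw [← List.take_append_drop i ws]
  rw [List.sum_append]; omega

/-- the parameters -/
def par (ws : List ℕ) (t : ℕ) (ht : t ≤ ws.sum) : Par where
  m := ws.length
  t := t
  W := ws.sum
  X := XX ws
  w := fun i => ws.getD i 0
  M := MM ws
  G := GG ws
  P := PP ws
  H := HH ws
  AA := AAA ws
  G0 := by simp [GG]
  G1 := fun i => by
    have h1 := three_GG ws i
    have h2 := three_GG ws (i + 1)
    have h3 := MM_succ ws i
    omega
  P0 := by simp [PP]
  P1 := PP_succ ws
  PW := by simp [PP]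
  tW := ht
  WX := by
    rcases Nat.eq_zero_or_pos ws.length with h | h
    · have : ws = [] := List.length_eq_zero_iff.1 h
      subst this; simp
    · have h1 := MM_lt ws 0 h
      have h2 := MM_ge ws 0
      unfold BB at h2
      omega
  dom := fun i => by
    have h1 := three_GG ws i
    have h2 := MM_ge ws i
    unfold BB at h1 h2
    omega
  bd := fun i hi => by
    have h1 := MM_lt ws i hi
    have h2 := getD_le_sum ws i
    have h3 := MM_ge ws i
    unfold BB at h3
    omega
  mon := fun i => by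
    have h1 := MM_succ ws i
    have h2 := getD_le_sum ws i
    have h3 := MM_ge ws i
    unfold BB at h3
    omega
  A0 := by simp [AAA, HH]
  A1 := fun i => by
    unfold AAA HH
    have : 2 ^ (i + 1 + 1) - 1 = (2 ^ (i + 1) - 1) + 2 ^ (i + 1) := by
      have : 0 < 2 ^ (i + 1) := by positivity
      have h2 : 2 ^ (i + 1 + 1) = 2 * 2 ^ (i + 1) := by ring
      omega
    rw [this]; ring
  H0 := by
    have h1 := three_GG ws ws.length
    have h2 : MM ws ws.length = XX ws := rfl
    have h3 : HH ws 0 = 16 * XX ws := by simp [HH]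
    have h4 := MM_ge ws ws.length
    unfold BB at h4
    omega
  H1 := fun i hi => by
    have h1 := three_GG ws ws.length
    have h2 : MM ws ws.length = XX ws := rfl
    have h4 := MM_ge ws ws.length
    have h5 := three_GG ws i
    have h6 := MM_lt ws i hi
    have h7 := PP_le ws (i + 1)
    have h8 : HH ws (i + 1) = AAA ws i + 16 * XX ws := by
      unfold HH AAA
      have : 0 < 2 ^ (i + 1) := by positivity
      obtain ⟨q, hq⟩ : ∃ q, 2 ^ (i + 1) = q + 1 := ⟨2 ^ (i + 1) - 1, by omega⟩
      rw [hq]; simp; ring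
    unfold BB at h4
    omega

theorem sublist_iff (ws : List ℕ) (t : ℕ) :
    (∃ s : List ℕ, s.Sublist ws ∧ s.sum = t) ↔
      ∃ s : ℕ → Bool, ∑ i ∈ range ws.length, (if s i then ws.getD i 0 else 0) = t := by
  constructor
  · rintro ⟨s, hs, rfl⟩
    induction hs with
    | slnil => exact ⟨fun _ => false, by simp⟩
    | cons a h ih =>
      obtain ⟨f, hf⟩ := ih
      refine ⟨fun i => if i = 0 then false else f (i - 1), ?_⟩
      rw [List.length_cons, sum_range_succ']
      simpa using hf
    | cons_cons a h ih =>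
      obtain ⟨f, hf⟩ := ih
      refine ⟨fun i => if i = 0 then true else f (i - 1), ?_⟩
      rw [List.length_cons, sum_range_succ', List.sum_cons, ← hf]
      simp [add_comm]
  · rintro ⟨f, hf⟩
    induction ws generalizing f t with
    | nil => exact ⟨[], List.Sublist.slnil, by simpa using hf⟩
    | cons a ws ih =>
      rw [List.length_cons, sum_range_succ'] at hf
      obtain ⟨s, hs, hs'⟩ := ih _ (fun i => f (i + 1)) rfl
      cases h0 : f 0 with
      | false =>
        refine ⟨s, hs.cons a, ?_⟩
        rw [hs', ← hf, h0]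
        simp
      | true =>
        refine ⟨a :: s, hs.cons_cons a, ?_⟩
        rw [List.sum_cons, hs', ← hf, h0]
        simp [add_comm]

end Pool.Agent.Q231.Line
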